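import Pool.Agent.H26.OC.RWB
import Pool.Agent.H70.K2.AVG
import Pool.Agent.H66.OC.Dec

/-!
# The prediction lemma, kernel

Samples `ω` with a line `L ω`, a cell `Cl i ω` of the time, a vector `φ ω` (a function of the
time), unknown numbers `V ω` (a function of the line). If the vectors `φ` of the pairs of samples
of one line are not concentrated near a hyperplane, and the forms `V · (φ' - φ)` do not hit the
heavy rows `J ω`, then the unknown numbers have small entropy.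
-/

set_option autoImplicit false

namespace Pool.FR

open Finset Real
open Pool.Agent.H49.Ent Pool.Agent.H32.Dense Pool.STK Pool.KAF Pool.OC

variable {Ω Λ κ ι : Type} [Fintype Ω] [Fintype ι]

/-! ### Tools -/

theorem Pr_sum {Ω : Type} [Fintype Ω] (p : Ω → ℝ) (E : Set Ω) :
    Pr p E = (open Classical in ∑ ω, p ω * if ω ∈ E then 1 else 0) := by
  classical
  rw [RWB.Pr_eq]
  refine Finset.sum_congr rfl fun ω _ => ?_
  by_cases h : ω ∈ E <;> simp [h]

theorem Pr_nn {Ω : Type} [Fintype Ω] {p : Ω → ℝ} (hp : ∀ ω, 0 ≤ p ω) (E : Set Ω) : 0 ≤ Pr p E := by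
  classical
  rw [Pr_sum]
  refine Finset.sum_nonneg fun ω _ => mul_nonneg (hp ω) ?_
  split_ifs <;> norm_num

theorem Pr_le {Ω : Type} [Fintype Ω] {p : Ω → ℝ} (hp : ∀ ω, 0 ≤ p ω) {E E' : Set Ω}
    (h : ∀ ω, 0 < p ω → ω ∈ E → ω ∈ E') : Pr p E ≤ Pr p E' := by
  classical
  rw [Pr_sum, Pr_sum]
  refine Finset.sum_le_sum fun ω _ => ?_
  rcases (hp ω).eq_or_lt with h0 | h0
  · rw [← h0]; simp
  · refine mul_le_mul_of_nonneg_left ?_ h0.le
    by_cases h1 : ω ∈ E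
    · rw [if_pos h1, if_pos (h ω h0 h1)]
    · rw [if_neg h1]
      split_ifs <;> norm_num

theorem Pr_or {Ω : Type} [Fintype Ω] {p : Ω → ℝ} (hp : ∀ ω, 0 ≤ p ω) {E E₁ E₂ : Set Ω}
    (h : ∀ ω, 0 < p ω → ω ∈ E → ω ∈ E₁ ∨ ω ∈ E₂) : Pr p E ≤ Pr p E₁ + Pr p E₂ := by
  classical
  rw [Pr_sum, Pr_sum, Pr_sum, ← Finset.sum_add_distrib]
  refine Finset.sum_le_sum fun ω _ => ?_
  rcases (hp ω).eq_or_lt with h0 | h0
  · rw [← h0]; simp
  · rw [← mul_add]
    refine mul_le_mul_of_nonneg_left ?_ h0.le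
    by_cases h1 : ω ∈ E
    · rw [if_pos h1]
      rcases h ω h0 h1 with h2 | h2
      · rw [if_pos h2]
        split_ifs <;> norm_num
      · rw [if_pos h2]
        split_ifs <;> norm_num
    · rw [if_neg h1]
      split_ifs <;> norm_num

/-- Tower property for a law with a given marginal of the label. -/
theorem tower2 {Ω' Ω Λ : Type} [Fintype Ω'] [Fintype Ω] {q : Ω' → ℝ} {p : Ω → ℝ}
    (hq : ∀ w, 0 ≤ q w) (Z : Ω' → Λ) (L : Ω → Λ) (hZ : ∀ z, law q Z z = law p L z)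
    (f : Ω' → ℝ) : ∑ ω, p ω * ∑ w, cond q Z (L ω) w * f w = ∑ w, q w * f w := by
  classical
  have h1 : ∀ w, ∑ ω, p ω * (cond q Z (L ω) w * f w) = q w * f w := by
    intro w
    unfold Pool.Agent.H49.Ent.cond
    rcases (hq w).eq_or_lt with h0 | h0
    · rw [← h0]; simp
    have h2 : 0 < law p L (Z w) := by
      rw [← hZ]; exact law_pos hq Z h0
    have h3 : ∀ ω, p ω * ((if Z w = L ω then q w / law q Z (L ω) else 0) * f w) =
        (if L ω = Z w then p ω else 0) * (q w / law p L (Z w) * f w) := by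
      intro ω
      by_cases h4 : Z w = L ω
      · rw [if_pos h4, if_pos h4.symm, hZ, ← h4]
      · rw [if_neg h4, if_neg (Ne.symm h4)]
        ring
    rw [Finset.sum_congr rfl fun ω _ => h3 ω, ← Finset.sum_mul]
    change law p L (Z w) * _ = _
    field_simp
  rw [← Finset.sum_congr rfl fun w _ => h1 w, Finset.sum_comm]
  refine Finset.sum_congr rfl fun ω _ => ?_
  rw [Finset.mul_sum]

theorem Pr_two {Ω : Type} [Fintype Ω] {β : Type} {p : Ω → ℝ} (b : Ω → β) (P : Ω → Ω → Prop) :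
    Pr (dbl p b) {w | P w.1 w.2} =
      ∑ ω, p ω * Pr (cond p b (b ω)) {v | P ω v} := by
  classical
  rw [Pr_sum, Fintype.sum_prod_type]
  refine Finset.sum_congr rfl fun ω _ => ?_
  rw [Pr_sum, Finset.mul_sum]
  refine Finset.sum_congr rfl fun v _ => ?_
  unfold Pool.Agent.H32.Dense.dbl Pool.Agent.H49.Ent.glue Pool.Agent.H49.Ent.cond
  by_cases h1 : b ω = b v
  · by_cases h2 : P ω v
    · rw [if_pos (show (ω, v) ∈ {w : Ω × Ω | P w.1 w.2} from h2), if_pos h1, if_pos h1.symm,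
        if_pos (show v ∈ {v | P ω v} from h2)]
      ring
    · rw [if_neg (show (ω, v) ∉ {w : Ω × Ω | P w.1 w.2} from h2),
        if_neg (show v ∉ {v | P ω v} from h2)]
      ring
  · rw [if_neg h1, if_neg (Ne.symm h1)]
    simp

theorem law_dbl_fst {Ω Λ β : Type} [Fintype Ω] {p : Ω → ℝ} (hp : ∀ ω, 0 ≤ p ω) (b : Ω → β)
    (L : Ω → Λ) (z : Λ) : law (dbl p b) (fun w => L w.1) z = law p L z :=
  law_glue_fst hp (fun _ => rfl) L z

theorem dbl_nonneg {Ω β : Type} [Fintype Ω] {p : Ω → ℝ} (hp : ∀ ω, 0 ≤ p ω) (b : Ω → β)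
    (w : Ω × Ω) : 0 ≤ dbl p b w := glue_nonneg hp hp w

theorem dbl_pos {Ω β : Type} [Fintype Ω] {p : Ω → ℝ} (hp : ∀ ω, 0 ≤ p ω) (b : Ω → β)
    {w : Ω × Ω} (h : 0 < dbl p b w) : 0 < p w.1 ∧ 0 < p w.2 ∧ b w.1 = b w.2 :=
  (glue_pos_iff hp hp w).1 h

theorem cond_pos' {Ω β : Type} [Fintype Ω] {p : Ω → ℝ} (hp : ∀ ω, 0 ≤ p ω) (b : Ω → β) {z : β}
    {w : Ω} (h : 0 < cond p b z w) : 0 < p w ∧ b w = z := by
  unfold Pool.Agent.H49.Ent.cond at h
  split_ifs at h with h1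
  · refine ⟨?_, h1⟩
    rcases (hp w).eq_or_lt with h0 | h0
    · rw [← h0, zero_div] at h; exact absurd h (lt_irrefl _)
    · exact h0
  · exact absurd h (lt_irrefl _)

/-! ### The kernel -/

/-- Pairs of samples on one line in one cell of the times. -/
noncomputable def Qp (p : Ω → ℝ) (L : Ω → Λ) (Cl : ℕ → Ω → κ) (i : ℕ) : Ω × Ω → ℝ :=
  dbl p (fun ω => (L ω, Cl i ω))

/-- The vectors of the pairs of the line of `ω` are not concentrated near a hyperplane. -/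
def NC (p : Ω → ℝ) (L : Ω → Λ) (Cl : ℕ → Ω → κ) (φ : Ω → ι → ℝ) (n₀ C : ℕ) (η : ℝ)
    (ω : Ω) : Prop :=
  ∀ lam : ι → ℝ, ∑ i ∈ range n₀, Pr (cond (Qp p L Cl i) (fun w => L w.1) (L ω))
    {w | |∑ j, lam j * (φ w.2 j - φ w.1 j)| < ‖lam‖ * (2 : ℝ) ^ (-((i : ℤ) + C))} ≤ η * n₀

/-- The pairs of the line of `ω` which hit a heavy row with the form `D`. -/
def Hit (J : Ω → Set ℕ) (φ : Ω → ι → ℝ) (s i k₁ : ℕ) (D : ι → ℝ) : Set (Ω × Ω) :=
  {w | s + i ∈ J w.1 ∧ (2 : ℝ) ^ (-((s : ℤ) + i + k₁)) ≤ |∑ j, D j * (φ w.2 j - φ w.1 j)|}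

variable {p : Ω → ℝ} (L : Ω → Λ) (Cl : ℕ → Ω → κ) (φ V : Ω → ι → ℝ) (J : Ω → Set ℕ)

/-- Pointwise bound. -/
theorem hit_lower (hp : IsLaw p) {n₀ C k₁ s : ℕ} (hC : C ≤ k₁) {u : ℝ} (ω : Ω) (hω : 0 < p ω)
    (hNC : NC p L Cl φ n₀ C (u / 16) ω)
    (hJ : Pr (cond p L (L ω)) {v | (Set.ncard {i | i < n₀ ∧ s + i ∈ J v} : ℝ) < u / 2 * n₀} ≤
      1 / 2) (hu : 0 ≤ u) (D : ι → ℝ)
    (hD : (2 : ℝ) ^ (-((s : ℤ) + (k₁ - C : ℕ))) ≤ ‖D‖) :
    u / 8 * n₀ ≤ ∑ i ∈ range n₀, Pr (cond (Qp p L Cl i) (fun w => L w.1) (L ω))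
      (Hit J φ s i k₁ D) := by
  classical
  have hp0 := hp.nonneg
  have hQ0 : ∀ i w, 0 ≤ Qp p L Cl i w := fun i w => dbl_nonneg hp0 _ w
  have hlaw : ∀ i z, law (Qp p L Cl i) (fun w => L w.1) z = law p L z := fun i z =>
    law_dbl_fst hp0 _ L z
  -- the first coordinate of the pair, given the line
  have hfst : ∀ i, ∀ E : Set Ω, Pr (cond (Qp p L Cl i) (fun w => L w.1) (L ω)) {w | w.1 ∈ E} =
      Pr (cond p L (L ω)) E := by
    intro i E
    rw [Pr_sum, Pr_sum]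
    unfold Pool.Agent.H49.Ent.cond
    rw [hlaw, Fintype.sum_prod_type]
    refine Finset.sum_congr rfl fun v _ => ?_
    by_cases h1 : L v = L ω
    · simp only [h1, if_true]
      by_cases h2 : v ∈ E
      · have h3 : ∀ x, ((v, x) ∈ {w : Ω × Ω | w.1 ∈ E}) := fun x => h2
        simp only [h3, h2, if_true, mul_one]
        rw [← Finset.sum_div]
        congr 1
        exact glue_fst (Z₁ := fun ω => (L ω, Cl i ω)) (Z₂ := fun ω => (L ω, Cl i ω)) hp0
          (fun _ => rfl) v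
      · have h3 : ∀ x, ¬ ((v, x) ∈ {w : Ω × Ω | w.1 ∈ E}) := fun x => h2
        simp only [h3, h2, if_false, mul_zero, Finset.sum_const_zero]
    · simp [h1]
  -- heavy rows
  have hone : ∑ v, cond p L (L ω) v = 1 := sum_cond p L (law_pos hp0 L hω).ne'
  have hc0 : ∀ v, 0 ≤ cond p L (L ω) v := fun v => cond_nonneg hp0 L _ v
  have hcard : ∀ v, (Set.ncard {i | i < n₀ ∧ s + i ∈ J v} : ℝ) =
      ((range n₀).filter fun i => s + i ∈ J v).card := by
    intro v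
    rw [← Set.ncard_coe_finset]
    congr 2
    ext i
    simp
  have hheavy : u / 4 * n₀ ≤ ∑ i ∈ range n₀, Pr (cond p L (L ω)) {v | s + i ∈ J v} := by
    have h1 : ∑ i ∈ range n₀, Pr (cond p L (L ω)) {v | s + i ∈ J v} =
        ∑ v, cond p L (L ω) v * (((range n₀).filter fun i => s + i ∈ J v).card : ℝ) := by
      have h2 : ∀ i, Pr (cond p L (L ω)) {v | s + i ∈ J v} =
          ∑ v, cond p L (L ω) v * if s + i ∈ J v then 1 else 0 := by
        intro i
        rw [Pr_sum]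
        exact Finset.sum_congr rfl fun v _ => by congr 1
      rw [Finset.sum_congr rfl fun i _ => h2 i, Finset.sum_comm]
      refine Finset.sum_congr rfl fun v _ => ?_
      rw [← Finset.mul_sum]
      congr 1
      rw [Finset.sum_ite, Finset.sum_const_zero, add_zero, Finset.sum_const, nsmul_eq_mul, mul_one]
    rw [h1]
    set E : Set Ω := {v | (Set.ncard {i | i < n₀ ∧ s + i ∈ J v} : ℝ) < u / 2 * n₀} with hE
    have h3 : ∀ v, cond p L (L ω) v * (u / 2 * n₀ * (1 - if v ∈ E then 1 else 0)) ≤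
        cond p L (L ω) v * (((range n₀).filter fun i => s + i ∈ J v).card : ℝ) := by
      intro v
      refine mul_le_mul_of_nonneg_left ?_ (hc0 v)
      by_cases hv : v ∈ E
      · rw [if_pos hv]; simp
      · rw [if_neg hv, sub_zero, mul_one, ← hcard v]
        exact not_lt.1 hv
    refine le_trans ?_ (Finset.sum_le_sum fun v _ => h3 v)
    have h4 : ∑ v, cond p L (L ω) v * (u / 2 * n₀ * (1 - if v ∈ E then 1 else 0)) =
        u / 2 * n₀ * (1 - Pr (cond p L (L ω)) E) := by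
      rw [Pr_sum]
      have : (1 : ℝ) - ∑ v, cond p L (L ω) v * (if v ∈ E then 1 else 0) =
          ∑ v, cond p L (L ω) v * (1 - if v ∈ E then 1 else 0) := by
        have h7 : ∀ v, cond p L (L ω) v * (1 - if v ∈ E then (1 : ℝ) else 0) =
            cond p L (L ω) v - cond p L (L ω) v * (if v ∈ E then 1 else 0) := fun v => by ring
        rw [Finset.sum_congr rfl fun v _ => h7 v, Finset.sum_sub_distrib, hone]
      rw [this, Finset.mul_sum]
      exact Finset.sum_congr rfl fun v _ => by ring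
    rw [h4]
    have h5 : 0 ≤ u / 2 * n₀ := by positivity
    have h8 : u / 2 * n₀ * (1 / 2) ≤ u / 2 * n₀ * (1 - Pr (cond p L (L ω)) E) :=
      mul_le_mul_of_nonneg_left (by linarith) h5
    linarith
  have hN := hNC D
  have hstep : ∀ i ∈ range n₀, Pr (cond p L (L ω)) {v | s + i ∈ J v} ≤
      Pr (cond (Qp p L Cl i) (fun w => L w.1) (L ω)) (Hit J φ s i k₁ D) +
      Pr (cond (Qp p L Cl i) (fun w => L w.1) (L ω))
        {w | |∑ j, D j * (φ w.2 j - φ w.1 j)| < ‖D‖ * (2 : ℝ) ^ (-((i : ℤ) + C))} := by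
    intro i _
    rw [← hfst i]
    refine Pr_or (fun w => cond_nonneg (hQ0 i) _ _ w) fun w _ hw => ?_
    by_cases h1 : |∑ j, D j * (φ w.2 j - φ w.1 j)| < ‖D‖ * (2 : ℝ) ^ (-((i : ℤ) + C))
    · exact Or.inr h1
    · refine Or.inl ⟨hw, ?_⟩
      refine le_trans ?_ (not_lt.1 h1)
      have h2 : (2 : ℝ) ^ (-((s : ℤ) + i + k₁)) =
          (2 : ℝ) ^ (-((s : ℤ) + (k₁ - C : ℕ))) * (2 : ℝ) ^ (-((i : ℤ) + C)) := by
        rw [← zpow_add₀ (by norm_num : (2 : ℝ) ≠ 0)]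
        congr 1
        have : ((k₁ - C : ℕ) : ℤ) = k₁ - C := by
          rw [Nat.cast_sub hC]
        rw [this]
        ring
      rw [h2]
      exact mul_le_mul_of_nonneg_right hD (by positivity)
  have hsum := Finset.sum_le_sum hstep
  rw [Finset.sum_add_distrib] at hsum
  have h6 : u / 16 * n₀ ≤ u / 8 * n₀ := by
    have : (0 : ℝ) ≤ n₀ := Nat.cast_nonneg _
    nlinarith
  linarith

/-- Mean bound in one cell. -/
theorem cell_bound (hp : IsLaw p) {γ : Type} (G : Ω → γ) (hV : Det p L V) (hG : Det p L G)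
    {n₀ C k₁ s : ℕ} (hC : C ≤ k₁) {u : ℝ} (hu : 0 < u) (hn : 0 < n₀) {π₁ η : ℝ}
    (hNC : Pr p {ω | ¬ NC p L Cl φ n₀ C (u / 16) ω} ≤ η)
    (hJ : Pr p {v | (Set.ncard {i | i < n₀ ∧ s + i ∈ J v} : ℝ) < u / 2 * n₀} ≤ π₁)
    {γ' : ℕ → Type} (Cx : ∀ i, Ω × Ω → γ' i) (hCx : ∀ i < n₀, ∀ w w', 0 < Qp p L Cl i w →
      0 < Qp p L Cl i w' → (Cx i w = Cx i w' ↔ G w.1 = G w'.1)) :
    Pr (dbl p G) {z | (2 : ℝ) ^ (-((s : ℤ) + (k₁ - C : ℕ))) ≤ ‖V z.1 - V z.2‖} ≤
      η + 2 * π₁ + 8 / (u * n₀) * ∑ i ∈ range n₀,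
        Pr (dbl (Qp p L Cl i) (Cx i)) {z | z.1 ∈ Hit J φ s i k₁ (V z.1.1 - V z.2.1)} := by
  classical
  have hp0 := hp.nonneg
  have hn' : (0 : ℝ) < n₀ := Nat.cast_pos.2 hn
  set E : Set Ω := {v | (Set.ncard {i | i < n₀ ∧ s + i ∈ J v} : ℝ) < u / 2 * n₀} with hE
  set B₁ : Set Ω := {ω | ¬ NC p L Cl φ n₀ C (u / 16) ω} with hB₁
  set B₂ : Set Ω := {ω | 1 / 2 < Pr (cond p L (L ω)) E} with hB₂
  have hB2 : Pr p B₂ ≤ 2 * π₁ := by
    refine Pool.KX.AVG.markov hp0 (fun ω => Pr (cond p L (L ω)) E) (fun ω _ =>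
      Pr_nn (fun v => cond_nonneg hp0 L _ v) E) (1 / 2) (2 * π₁) (by norm_num) ?_
    rw [Pool.KX.AVG.Pr_cond_sum hp0 L E]
    linarith
  set a : ℕ → Ω → Ω → ℝ := fun i ω v => Pr (cond (Qp p L Cl i) (fun w => L w.1) (L ω))
    (Hit J φ s i k₁ (V ω - V v)) with ha
  have ha0 : ∀ i ω v, 0 ≤ a i ω v := fun i ω v =>
    Pr_nn (fun w => cond_nonneg (fun w => dbl_nonneg hp0 _ w) _ _ w) _
  set K : ℝ := 8 / (u * n₀) with hK
  have hK0 : 0 ≤ K := by positivity
  -- pointwise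
  have hpt : ∀ ω, p ω * Pr (cond p G (G ω)) {v | (2 : ℝ) ^ (-((s : ℤ) + (k₁ - C : ℕ))) ≤
      ‖V ω - V v‖} ≤ (p ω * if ω ∈ B₁ then 1 else 0) + (p ω * if ω ∈ B₂ then 1 else 0) +
      p ω * ∑ v, cond p G (G ω) v * (K * ∑ i ∈ range n₀, a i ω v) := by
    intro ω
    rcases (hp0 ω).eq_or_lt with h0 | h0
    · rw [← h0]; simp
    rw [← mul_add, ← mul_add]
    refine mul_le_mul_of_nonneg_left ?_ h0.le
    have hc0 : ∀ v, 0 ≤ cond p G (G ω) v := fun v => cond_nonneg hp0 G _ v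
    have hs0 : 0 ≤ ∑ v, cond p G (G ω) v * (K * ∑ i ∈ range n₀, a i ω v) :=
      Finset.sum_nonneg fun v _ => mul_nonneg (hc0 v)
        (mul_nonneg hK0 (Finset.sum_nonneg fun i _ => ha0 i ω v))
    have hone : Pr (cond p G (G ω)) {v | (2 : ℝ) ^ (-((s : ℤ) + (k₁ - C : ℕ))) ≤
        ‖V ω - V v‖} ≤ 1 := by
      rw [Pr_sum]
      refine le_trans (Finset.sum_le_sum fun v _ => ?_) (sum_cond p G (law_pos hp0 G h0).ne').le
      have := hc0 v
      split_ifs <;> linarith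
    by_cases h1 : ω ∈ B₁
    · rw [if_pos h1]
      have : (0 : ℝ) ≤ if ω ∈ B₂ then 1 else 0 := by split_ifs <;> norm_num
      linarith
    · by_cases h2 : ω ∈ B₂
      · rw [if_neg h1, if_pos h2]
        linarith
      · rw [if_neg h1, if_neg h2, zero_add, zero_add, Pr_sum]
        refine Finset.sum_le_sum fun v _ => mul_le_mul_of_nonneg_left ?_ (hc0 v)
        by_cases h3 : v ∈ {v | (2 : ℝ) ^ (-((s : ℤ) + (k₁ - C : ℕ))) ≤ ‖V ω - V v‖}
        · rw [if_pos h3]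
          have h4 := hit_lower L Cl φ J hp hC ω h0 (not_not.1 h1) (not_lt.1 h2) hu.le
            (V ω - V v) h3
          have h5 := mul_le_mul_of_nonneg_left h4 hK0
          refine le_trans (le_of_eq ?_) h5
          rw [hK]
          field_simp
        · rw [if_neg h3]
          exact mul_nonneg hK0 (Finset.sum_nonneg fun i _ => ha0 i ω v)
  rw [Pr_two G (fun x y => (2 : ℝ) ^ (-((s : ℤ) + (k₁ - C : ℕ))) ≤ ‖V x - V y‖)]
  refine (Finset.sum_le_sum fun ω _ => hpt ω).trans ?_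
  rw [Finset.sum_add_distrib, Finset.sum_add_distrib]
  -- the last sum
  have hlast : ∑ ω, p ω * ∑ v, cond p G (G ω) v * (K * ∑ i ∈ range n₀, a i ω v) =
      K * ∑ i ∈ range n₀,
        Pr (dbl (Qp p L Cl i) (Cx i)) {z | z.1 ∈ Hit J φ s i k₁ (V z.1.1 - V z.2.1)} := by
    have e1 : ∀ ω, p ω * ∑ v, cond p G (G ω) v * (K * ∑ i ∈ range n₀, a i ω v) =
        ∑ i ∈ range n₀, K * (p ω * ∑ v, cond p G (G ω) v * a i ω v) := by
      intro ω
      simp only [Finset.mul_sum]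
      rw [Finset.sum_comm]
      refine Finset.sum_congr rfl fun i _ => Finset.sum_congr rfl fun v _ => by ring
    rw [Finset.sum_congr rfl fun ω _ => e1 ω, Finset.sum_comm, Finset.mul_sum]
    refine Finset.sum_congr rfl fun i hi => ?_
    rw [← Finset.mul_sum]
    congr 1
    have hi' := Finset.mem_range.1 hi
    set Q := Qp p L Cl i with hQ
    have hQ0 : ∀ w, 0 ≤ Q w := fun w => dbl_nonneg hp0 _ w
    set f : Ω × Ω → ℝ := fun w => Pr (cond p G (G w.1)) {v | w ∈ Hit J φ s i k₁ (V w.1 - V v)}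
      with hf
    have e2 : ∀ ω, p ω * ∑ v, cond p G (G ω) v * a i ω v =
        p ω * ∑ w, cond Q (fun w => L w.1) (L ω) w * f w := by
      intro ω
      rcases (hp0 ω).eq_or_lt with h0 | h0
      · rw [← h0]; simp
      congr 1
      have e3 : ∀ v, cond p G (G ω) v * a i ω v = ∑ w, cond Q (fun w => L w.1) (L ω) w *
          (cond p G (G ω) v * if w ∈ Hit J φ s i k₁ (V ω - V v) then 1 else 0) := by
        intro v
        rw [ha]
        simp only
        rw [Pr_sum, Finset.mul_sum]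
        exact Finset.sum_congr rfl fun w _ => by ring
      rw [Finset.sum_congr rfl fun v _ => e3 v, Finset.sum_comm]
      refine Finset.sum_congr rfl fun w _ => ?_
      rw [← Finset.mul_sum]
      rcases (cond_nonneg hQ0 (fun w => L w.1) (L ω) w).eq_or_lt with h1 | h1
      · rw [← h1, zero_mul, zero_mul]
      congr 1
      obtain ⟨h2, h3⟩ := cond_pos' hQ0 (fun w => L w.1) h1
      obtain ⟨h4, -, -⟩ := dbl_pos hp0 _ h2
      have h5 : V w.1 = V ω := hV _ _ h4 h0 h3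
      have h6 : G w.1 = G ω := hG _ _ h4 h0 h3
      rw [hf]
      simp only
      rw [Pr_sum, h5, h6]
      exact Finset.sum_congr rfl fun v _ => by congr 1
    rw [Finset.sum_congr rfl fun ω _ => e2 ω,
      tower2 hQ0 (fun w => L w.1) L (fun z => law_dbl_fst hp0 _ L z) f]
    have h7 := RWB.ex_dbl (q := p) (p := p) (Z₁ := fun ω => (L ω, Cl i ω))
      (Z₂ := fun ω => (L ω, Cl i ω)) hp0 hp0 (fun _ => rfl) (Cx i) G
      (fun w w' h h' => hCx i hi' w w' h h') Set.univ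
      (fun w v => w ∈ Hit J φ s i k₁ (V w.1 - V v))
    have h8 : Ex Q f = Ex Q (Set.indicator Set.univ
        (fun w => Pr (cond p G (G w.1)) {v | w ∈ Hit J φ s i k₁ (V w.1 - V v)})) := by
      rw [Set.indicator_univ]
    change Ex Q f = _
    rw [h8]
    refine h7.trans ?_
    congr 1
    ext z
    simp
  rw [hlast]
  have e9 : ∑ ω, (p ω * if ω ∈ B₁ then 1 else 0) = Pr p B₁ := by
    rw [Pr_sum]
    exact Finset.sum_congr rfl fun ω _ => by congr
  have e10 : ∑ ω, (p ω * if ω ∈ B₂ then 1 else 0) = Pr p B₂ := by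
    rw [Pr_sum]
  rw [e9, e10]
  linarith

end Pool.FR
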