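import Pool.Agent.H11.FR.SPc
import Pool.Agent.H33.M5.N1a
import Pool.Agent.H87.OC.Cost
import Pool.Agent.H65.OVN.Stmts

/-!
# The prediction lemma N1 in several variables
-/

set_option autoImplicit false

namespace Pool.FR

open Finset Real
open Pool.Agent.H49.Ent Pool.Agent.H32.Dense Pool.STK Pool.KAF Pool.OC Pool.M5 Pool.OVN

variable {n K : ℕ} (d : KDat n K)

/-- The unknown numbers. -/
noncomputable def Vr (ω : d.Om) (s : Mon n K) : ℝ := (d.v (d.L ω) s : ℝ) / 2 ^ d.X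

/-- The monomials at the time of the sample. -/
noncomputable def ph (ω : d.Om) (s : Mon n K) : ℝ := mono (s : Fin n → ℕ) (d.th (d.T ω))

/-- The time. -/
def tm (ω : d.Om) : Fin n → ℝ := d.th (d.T ω)

/-- The digits of the children of the cells. -/
noncomputable def dig {Ω ι : Type} [Fintype ι] (V : Ω → ι → ℝ) (s : ℕ) (ω : Ω) :
    Fin (2 ^ Fintype.card ι) :=
  (open Classical in Fintype.equivFinOfCardEq (α := ι → Fin 2) (by simp))
    (fun j => if cel V (s + 1) ω j = 2 * cel V s ω j then 0 else 1)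

theorem cel_succ_cases {Ω ι : Type} (V : Ω → ι → ℝ) (s : ℕ) (ω : Ω) (j : ι) :
    cel V (s + 1) ω j = 2 * cel V s ω j ∨ cel V (s + 1) ω j = 2 * cel V s ω j + 1 := by
  have h := cel_child V s 1 ω j
  omega

theorem cel_of_dig {Ω ι : Type} [Fintype ι] (V : Ω → ι → ℝ) (s : ℕ) {ω ω' : Ω}
    (h : cel V s ω = cel V s ω') (h' : dig V s ω = dig V s ω') :
    cel V (s + 1) ω = cel V (s + 1) ω' := by
  have h1 := (Equiv.injective _) h'
  funext j
  have h2 : (if cel V (s + 1) ω j = 2 * cel V s ω j then (0 : Fin 2) else 1) =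
      (if cel V (s + 1) ω' j = 2 * cel V s ω' j then (0 : Fin 2) else 1) := congrFun h1 j
  have h3 : cel V s ω j = cel V s ω' j := congrFun h j
  rcases cel_succ_cases V s ω j with h4 | h4 <;> rcases cel_succ_cases V s ω' j with h5 | h5
  · rw [h4, h5, h3]
  · rw [if_pos h4, if_neg (by omega)] at h2
    exact absurd h2 (by decide)
  · rw [if_neg (by omega), if_pos h5] at h2
    exact absurd h2 (by decide)
  · rw [h4, h5, h3]

theorem dig_of_cel {Ω ι : Type} [Fintype ι] (V : Ω → ι → ℝ) (s : ℕ) {ω ω' : Ω}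
    (h : cel V (s + 1) ω = cel V (s + 1) ω') (h' : cel V s ω = cel V s ω') :
    dig V s ω = dig V s ω' := by
  unfold dig
  rw [h, h']

theorem law_self {Ω : Type} [Fintype Ω] (p : Ω → ℝ) (ω : Ω) : law p (fun ω => ω) ω = p ω := by
  classical
  unfold Pool.Agent.H49.Ent.law
  rw [Finset.sum_eq_single ω]
  · exact if_pos rfl
  · intro b _ hb
    exact if_neg hb
  · intro h
    exact absurd (Finset.mem_univ ω) h

/-- A Lipschitz constant of the monomials. -/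
theorem mono_lip (hTAY : TAYStmt) (n K : ℕ) : ∃ C : ℝ, 0 ≤ C ∧ ∀ (s : Mon n K)
    (x x' : Fin n → ℝ), (∀ j, |x j| ≤ 1) → (∀ j, |x' j| ≤ 1) →
    |mono (s : Fin n → ℕ) x - mono (s : Fin n → ℕ) x'| ≤ C * ‖x - x'‖ := by
  obtain ⟨b, hg, hD⟩ := hTAY n K
  have hC : 0 ≤ b.C := by linarith [b.hC]
  refine ⟨b.C * 2 + n * b.C, by positivity, ?_⟩
  intro s x x' hx hx'
  have h1 := b.tay s x x' x' hx hx' hx' 2 (fun j => by
    have := abs_le.1 (hx j)
    have := abs_le.1 (hx' j)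
    rw [abs_le]
    constructor <;> linarith) (fun j => by rw [sub_self, abs_zero]; norm_num)
  rw [hg] at h1
  have h2 : |∑ j, b.D s x' j * (x j - x' j)| ≤ n * b.C * ‖x - x'‖ := by
    refine (Finset.abs_sum_le_sum_abs _ _).trans ?_
    have h3 : ∀ j ∈ (univ : Finset (Fin n)), |b.D s x' j * (x j - x' j)| ≤ b.C * ‖x - x'‖ := by
      intro j _
      rw [abs_mul]
      exact mul_le_mul (b.hD s x' hx' j) (norm_le_pi_norm (x - x') j) (abs_nonneg _) hC
    refine (Finset.sum_le_sum h3).trans (le_of_eq ?_)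
    rw [Finset.sum_const, Finset.card_univ, Fintype.card_fin, nsmul_eq_mul]
    ring
  have h4 : |mono (s : Fin n → ℕ) x - mono (s : Fin n → ℕ) x'| ≤
      |mono (s : Fin n → ℕ) x - mono (s : Fin n → ℕ) x' - ∑ j, b.D s x' j * (x j - x' j)| +
      |∑ j, b.D s x' j * (x j - x' j)| := by
    have := abs_add_le (mono (s : Fin n → ℕ) x - mono (s : Fin n → ℕ) x' -
      ∑ j, b.D s x' j * (x j - x' j)) (∑ j, b.D s x' j * (x j - x' j))
    rwa [sub_add_cancel] at this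
  linarith

/-- The heavy rows are not hit. -/
theorem rowK {A : ℕ} (hOK : d.OK A) {ι δ e C : ℝ} (hι : 2 * ι ≤ δ) (hδ : 0 ≤ δ)
    (hH1 : Pool.KVA.MI d.P d.T d.L (fun _ => ()) ≤ ι * d.X) (J : d.Om → Set ℕ) (k k₁ : ℕ)
    (hLip : ∀ (s : Mon n K) (x x' : Fin n → ℝ), (∀ j, |x j| ≤ 1) → (∀ j, |x' j| ≤ 1) →
      |mono (s : Fin n → ℕ) x - mono (s : Fin n → ℕ) x'| ≤ C * ‖x - x'‖) (hC : 0 ≤ C)
    (hk : Fintype.card (Mon n K) * C ≤ 2 ^ k)
    (hRow : d.toR.RowOK J k k₁ (2 ^ Fintype.card (Mon n K)) e δ) (i : ℕ) :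
    ∑ s ∈ range d.X, Pr (dbl (Qp d.P d.L (cel (tm d)) i) (fun w => ((), (), cel (Vr d) s w.1)))
      {z | z.1 ∈ Hit J (ph d) s i k₁ (Vr d z.1.1 - Vr d z.2.1)} ≤ e * d.X := by
  classical
  have hP0 := hOK.law.nonneg
  set Q := Qp d.P d.L (cel (tm d)) i with hQ
  have hQl : IsLaw Q := dbl_law hOK.law _
  have hQs : ∀ w, 0 < Q w → 0 < d.P w.1 ∧ 0 < d.P w.2 ∧ d.L w.1 = d.L w.2 ∧
      cel (tm d) i w.1 = cel (tm d) i w.2 := by
    intro w hw
    obtain ⟨h1, h2, h3⟩ := dbl_pos hP0 _ hw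
    exact ⟨h1, h2, congrArg Prod.fst h3, congrArg Prod.snd h3⟩
  have hVL : ∀ ω ω', d.v (d.L ω) = d.v (d.L ω') → Vr d ω = Vr d ω' := by
    intro ω ω' h
    funext s
    unfold Vr
    rw [h]
  have hZR : ∀ (w v : d.Om × d.Om), d.toR.ZR (d.T w.1) (d.T w.2) (d.v (d.L w.1)) -
      d.toR.ZR (d.T w.1) (d.T w.2) (d.v (d.L v.1)) =
      ∑ j, (Vr d w.1 - Vr d v.1) j * (ph d w.2 j - ph d w.1 j) := by
    intro w v
    show (∑ s, ((d.v (d.L w.1) s : ℝ) / 2 ^ d.X) * _) - (∑ s, ((d.v (d.L v.1) s : ℝ) / 2 ^ d.X) * _)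
      = _
    rw [← Finset.sum_sub_distrib]
    refine Finset.sum_congr rfl fun s _ => ?_
    rw [Pi.sub_apply]
    unfold Vr ph
    ring
  have key := hRow (d.Om × d.Om) Unit (d.Tau × d.Tau) Unit (fun _ => Mon n K → ℤ) Q
    (fun w => w.1) (fun w => w.2) (fun _ => ()) (fun w => (d.T w.1, d.T w.2)) (fun _ => ())
    (fun s w => cel (Vr d) s w.1) (fun s w => dig (Vr d) s w.1) (fun _ => (i : ℤ)) Set.univ
    0 d.X hQl ?_ ?_ ?_ ?_ ?_ ?_ ?_ ?_ ?_ ?_ ?_ ?_ le_rfl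
  · rw [← Finset.range_eq_Ico] at key
    refine le_trans (le_of_eq ?_) key
    refine Finset.sum_congr rfl fun s _ => ?_
    refine congrArg (Pr _) ?_
    ext z
    have h1 : (0 : ℤ) ≤ (s : ℤ) + i := by positivity
    have h2 : ((s : ℤ) + i).toNat = s + i := by omega
    show (s + i ∈ J z.1.1 ∧ (2 : ℝ) ^ (-((s : ℤ) + i + k₁)) ≤
      |∑ j, (Vr d z.1.1 - Vr d z.2.1) j * (ph d z.1.2 j - ph d z.1.1 j)|) ↔
      (z.1 ∈ Set.univ ∧ 0 ≤ (s : ℤ) + i ∧ ((s : ℤ) + i).toNat ∈ J z.1.1 ∧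
      (2 : ℝ) ^ (-((s : ℤ) + i + k₁)) ≤
      |d.toR.ZR (d.T z.1.1) (d.T z.1.2) (d.v (d.L z.1.1)) -
        d.toR.ZR (d.T z.1.1) (d.T z.1.2) (d.v (d.L z.2.1))|)
    rw [h2, hZR z.1 z.2]
    simp only [Set.mem_univ, true_and]
    constructor
    · rintro ⟨a, b⟩
      exact ⟨h1, a, b⟩
    · rintro ⟨-, a, b⟩
      exact ⟨a, b⟩
  · intro ω
    exact (law_dbl_fst hP0 _ (fun ω => ω) ω).trans (law_self d.P ω)
  · intro ω
    have := law_glue_snd (p₁ := d.P) (p₂ := d.P) (Z₁ := fun ω => (d.L ω, cel (tm d) i ω))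
      (Z₂ := fun ω => (d.L ω, cel (tm d) i ω)) hP0 (fun _ => rfl) (fun ω => ω) ω
    exact this.trans (law_self d.P ω)
  · intro w hw
    exact (hQs w hw).2.2.1.symm
  · intro w w' _ _ h
    have h' : (d.T w.1, d.T w.2) = (d.T w'.1, d.T w'.2) := h
    simp only [Prod.mk.injEq] at h'
    show ((), d.T w.1, d.T w.2) = ((), d.T w'.1, d.T w'.2)
    rw [h'.1, h'.2]
  · have h1 : Pool.KVA.MI d.P d.L d.T (fun _ => ()) ≤ ι * d.X := by
      rw [Pool.OC.mi_comm d.L d.T (fun _ => ()) hP0]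
      exact hH1
    have h2 := Pool.OC.cost_pair hOK.law d.L d.T (fun τ => fun j => ⌊(2 : ℝ) ^ i * d.th τ j⌋)
      (ι * d.X) h1
    refine (show Pool.KVA.MI Q (fun w => d.L w.1) (fun w => (d.T w.1, d.T w.2)) (fun _ => ()) ≤
      2 * (ι * d.X) from h2).trans ?_
    rw [← mul_assoc]
    exact mul_le_mul_of_nonneg_right hι (Nat.cast_nonneg _)
  · intro w w' _ _ _
    rfl
  · rw [CH_eq_zero hQl.nonneg fun _ _ _ _ _ => rfl]
    exact mul_nonneg hδ (Nat.cast_nonneg _)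
  · intro s _ w w' _ _ h
    have h' : d.v (d.L w.1) = d.v (d.L w'.1) := by
      have h2 : ((), (), d.v (d.L w.1)) = ((), (), d.v (d.L w'.1)) := h
      simpa using h2
    show cel (Vr d) s w.1 = cel (Vr d) s w'.1
    unfold cel
    rw [hVL _ _ h']
  · intro s _ w w' _ _ h
    have h' : (cel (Vr d) s w.1, dig (Vr d) s w.1) = (cel (Vr d) s w'.1, dig (Vr d) s w'.1) := h
    simp only [Prod.mk.injEq] at h'
    exact cel_of_dig (Vr d) s h'.1 h'.2
  · intro s _ w w' _ _ h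
    have h' : cel (Vr d) (s + 1) w.1 = cel (Vr d) (s + 1) w'.1 := h
    have h2 : cel (Vr d) s w.1 = cel (Vr d) s w'.1 := by
      funext j
      rw [cel_eq_div (Vr d) s 1 w.1 j, cel_eq_div (Vr d) s 1 w'.1 j, h']
    show (cel (Vr d) s w.1, dig (Vr d) s w.1) = (cel (Vr d) s w'.1, dig (Vr d) s w'.1)
    rw [h2, dig_of_cel (Vr d) s h' h2]
  · intro s _ w w' _ _ _
    rfl
  · intro s w w' _ hw _ _ _ _ hc
    have hc' : cel (Vr d) s w.1 = cel (Vr d) s w'.1 := hc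
    have h1 := (hQs w hw).2.2.2
    have hth : ‖d.th (d.T w.2) - d.th (d.T w.1)‖ ≤ 1 / 2 ^ i :=
      (pi_norm_le_iff_of_nonneg (by positivity)).2 fun j => cel_near (tm d) h1.symm j
    have hth1 : ∀ (ω : d.Om) (j : Fin n), |d.th (d.T ω) j| ≤ 1 := fun ω j => by
      rw [abs_le]
      have := hOK.hth (d.T ω) j
      constructor <;> linarith
    have hVn : ∀ j, |(Vr d w.1 - Vr d w'.1) j| ≤ 1 / 2 ^ s := by
      intro j
      rw [Pi.sub_apply]
      have e1 := Int.floor_le ((2 : ℝ) ^ s * Vr d w.1 j)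
      have e2 := Int.lt_floor_add_one ((2 : ℝ) ^ s * Vr d w.1 j)
      have e3 := Int.floor_le ((2 : ℝ) ^ s * Vr d w'.1 j)
      have e4 := Int.lt_floor_add_one ((2 : ℝ) ^ s * Vr d w'.1 j)
      have e5 : ⌊(2 : ℝ) ^ s * Vr d w.1 j⌋ = ⌊(2 : ℝ) ^ s * Vr d w'.1 j⌋ := congrFun hc' j
      rw [e5] at e1 e2
      have hpos : (0 : ℝ) < 2 ^ s := by positivity
      rw [le_div_iff₀ hpos, ← abs_of_pos hpos, ← abs_mul, abs_le]
      constructor <;> nlinarith
    show |d.toR.ZR (d.T w.1) (d.T w.2) (d.v (d.L w.1)) -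
      d.toR.ZR (d.T w.1) (d.T w.2) (d.v (d.L w'.1))| ≤ (2 : ℝ) ^ ((k : ℤ) - (s + i))
    rw [hZR w w']
    refine (Finset.abs_sum_le_sum_abs _ _).trans ?_
    have h3 : ∀ j ∈ (univ : Finset (Mon n K)), |(Vr d w.1 - Vr d w'.1) j *
        (ph d w.2 j - ph d w.1 j)| ≤ 1 / 2 ^ s * (C * (1 / 2 ^ i)) := by
      intro j _
      rw [abs_mul]
      refine mul_le_mul (hVn j) ?_ (abs_nonneg _) (by positivity)
      exact (hLip j _ _ (hth1 w.2) (hth1 w.1)).trans (mul_le_mul_of_nonneg_left hth hC)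
    refine (Finset.sum_le_sum h3).trans ?_
    rw [Finset.sum_const, Finset.card_univ, nsmul_eq_mul]
    have h4 : (2 : ℝ) ^ ((k : ℤ) - (s + i)) = 2 ^ k * (1 / 2 ^ s * (1 / 2 ^ i)) := by
      rw [zpow_sub₀ (by norm_num : (2 : ℝ) ≠ 0), zpow_add₀ (by norm_num : (2 : ℝ) ≠ 0),
        zpow_natCast, zpow_natCast, zpow_natCast]
      field_simp
    rw [h4]
    have h5 := mul_le_mul_of_nonneg_right hk
      (show (0 : ℝ) ≤ 1 / 2 ^ s * (1 / 2 ^ i) by positivity)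
    linarith

/-- Entropy of the first digits. -/
theorem H_cel_base {Ω ι : Type} [Fintype Ω] [Fintype ι] {p : Ω → ℝ} (hp : IsLaw p)
    (V : Ω → ι → ℝ) (hV : ∀ ω j, |V ω j| ≤ 1) (s : ℕ) :
    H p (cel V s) ≤ Fintype.card ι * ((s + 2) * Real.log 2) := by
  classical
  have h1 := H_le_log_card hp.nonneg hp.sum_one (cel V s)
    (F := Fintype.piFinset fun _ => Finset.Icc (-(2 ^ s : ℤ)) (2 ^ s)) (by
      intro ω _
      rw [Fintype.mem_piFinset]
      intro j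
      rw [Finset.mem_Icc]
      have h2 := abs_le.1 (hV ω j)
      have hpos : (0 : ℝ) < 2 ^ s := by positivity
      unfold cel
      constructor
      · rw [Int.le_floor]
        push_cast
        nlinarith
      · have : ⌊(2 : ℝ) ^ s * V ω j⌋ < 2 ^ s + 1 := by
          rw [Int.floor_lt]
          push_cast
          nlinarith
        omega)
  refine h1.trans ?_
  rw [Fintype.card_piFinset]
  have h3 : (Finset.Icc (-(2 ^ s : ℤ)) (2 ^ s)).card ≤ 2 ^ (s + 2) := by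
    rw [Int.card_Icc]
    have h4 : (2 : ℤ) ^ s + 1 - -(2 ^ s) ≤ ((2 ^ (s + 2) : ℕ) : ℤ) := by
      push_cast
      have : (1 : ℤ) ≤ 2 ^ s := one_le_pow₀ (by norm_num)
      rw [pow_add]
      linarith
    exact Int.toNat_le.2 h4
  have h5 : ((∏ _j : ι, (Finset.Icc (-(2 ^ s : ℤ)) (2 ^ s)).card : ℕ) : ℝ) ≤
      (2 ^ (s + 2)) ^ Fintype.card ι := by
    rw [Finset.prod_const, Finset.card_univ]
    push_cast
    exact pow_le_pow_left₀ (Nat.cast_nonneg _) (by exact_mod_cast h3) _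
  have h6 : (0 : ℝ) < ((∏ _j : ι, (Finset.Icc (-(2 ^ s : ℤ)) (2 ^ s)).card : ℕ) : ℝ) := by
    have : 0 < ∏ _j : ι, (Finset.Icc (-(2 ^ s : ℤ)) (2 ^ s)).card :=
      Finset.prod_pos fun _ _ => Finset.card_pos.2 ⟨0, by
        rw [Finset.mem_Icc]
        have : (0 : ℤ) ≤ 2 ^ s := by positivity
        constructor <;> linarith⟩
    exact_mod_cast this
  refine (Real.log_le_log h6 h5).trans (le_of_eq ?_)
  rw [Real.log_pow, Real.log_pow]
  push_cast
  ring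

end Pool.FR
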