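import Pool.Agent.H11.FR.NkThm
import Pool.Agent.H40.FR.GridGrad
import Pool.Agent.H86.OC.ROW

/-!
# NK
-/

set_option autoImplicit false

namespace Pool.FR

open Pool.M5 Pool.OVN

theorem grd_thm : GRDStmt := by
  intro n K σ hσ
  obtain ⟨δ, M₀, hδ, h⟩ := Pool.Agent.H40.FR.grid_grad n K σ hσ
  refine ⟨δ, M₀, hδ, fun M hM a ha => ?_⟩
  have := h M hM a ha
  convert this using 3

/-- **NK** from the heavy rows. -/
theorem nk_of (hR : RROWStmt) : NKStmt := nk_thm hR grd_thm Pool.Agent.H1.M5.tay_thm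

/-- **NK**: the prediction lemma in several variables. -/
theorem nk : NKStmt := nk_of Pool.OC.RS.row_M5

end Pool.FR
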