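import Pool.Agent.H11.FR.Nk

/-!
# The prediction lemma N1 in several variables: assembly
-/

set_option autoImplicit false

namespace Pool.FR

open Finset Real
open Pool.Agent.H49.Ent Pool.Agent.H32.Dense Pool.STK Pool.KAF Pool.OC Pool.M5 Pool.OVN

/-- Final arithmetic. -/
theorem nk_arith {N ε u Lg β X S n₀ h κ₀ e π₁ η₂ Sg H0 HX HS : ℝ} (hN : 0 ≤ N) (hε : 0 < ε)
    (hu : 0 < u) (hLg : 0 < Lg) (hX : 0 ≤ X) (hκ₀ : 0 < κ₀) (hβ0 : 0 ≤ β)
    (hβ : 5 * β / (ε * Lg) ≤ κ₀) (hS : S ≤ X) (hSX : X - S ≤ n₀ + 2 * h) (hn₀ : n₀ ≤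
      ε / (10 * (N + 1)) * X) (hh : 2 * h ≤ ε / (10 * (N + 1)) * X) (hη : η₂ = ε / (20 * (N + 1)))
    (hπ : π₁ = ε / (40 * (N + 1))) (he : e = ε * u / (40 * (N + 1)))
    (hX2 : N * (κ₀ + 2) ≤ ε / 5 * X) (hH0 : H0 ≤ N * ((κ₀ + 2) * Lg))
    (hHS : HS ≤ H0 + S / κ₀ * β + N * Lg * Sg) (_hS0 : 0 ≤ S)
    (hSg : Sg ≤ S * (η₂ + 2 * π₁) + 8 / u * (e * X))
    (hHX : HX ≤ HS + N * ((X - S) * Lg)) : HX ≤ ε * X * Lg := by
  have hN1 : 0 < N + 1 := by linarith only [hN]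
  have hfr : N / (N + 1) ≤ 1 := by
    rw [div_le_one hN1]
    linarith only
  -- the terms
  have t1 : H0 ≤ ε / 5 * X * Lg := by
    refine hH0.trans ?_
    have := mul_le_mul_of_nonneg_right hX2 hLg.le
    linarith only [this]
  have t2 : S / κ₀ * β ≤ ε / 5 * X * Lg := by
    rw [div_le_iff₀ (by positivity)] at hβ
    have h1 : S / κ₀ * β = S * β / κ₀ := by ring
    rw [h1, div_le_iff₀ hκ₀]
    have h2 : S * β ≤ X * β := mul_le_mul_of_nonneg_right hS hβ0
    have h3 : X * β ≤ X * (κ₀ * (ε * Lg) / 5) := mul_le_mul_of_nonneg_left (by linarith only [hβ]) hX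
    linarith only [h2, h3]
  have t3 : N * Lg * Sg ≤ ε * 2 / 5 * X * Lg := by
    have h1 : N * Lg * Sg ≤ N * Lg * (S * (η₂ + 2 * π₁) + 8 / u * (e * X)) :=
      mul_le_mul_of_nonneg_left hSg (by positivity)
    refine h1.trans ?_
    have h2 : S * (η₂ + 2 * π₁) ≤ X * (ε / (10 * (N + 1))) := by
      have h3 : η₂ + 2 * π₁ = ε / (10 * (N + 1)) := by
        rw [hη, hπ]
        field_simp
        ring
      rw [h3]
      exact mul_le_mul_of_nonneg_right hS (by positivity)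
    have h4 : 8 / u * (e * X) = X * (ε / (5 * (N + 1))) := by
      rw [he]
      field_simp
      ring
    rw [h4]
    have h5 : N * Lg * (S * (η₂ + 2 * π₁) + X * (ε / (5 * (N + 1)))) ≤
        N * Lg * (X * (ε / (10 * (N + 1))) + X * (ε / (5 * (N + 1)))) :=
      mul_le_mul_of_nonneg_left (by linarith only [h2]) (by positivity)
    refine h5.trans ?_
    have h6 : N * Lg * (X * (ε / (10 * (N + 1))) + X * (ε / (5 * (N + 1)))) =
        N / (N + 1) * (3 / 10 * ε * X * Lg) := by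
      field_simp
      ring
    rw [h6]
    have h7 : 0 ≤ 3 / 10 * ε * X * Lg := by positivity
    have h8 := mul_le_mul_of_nonneg_right hfr h7
    have h9 : 0 ≤ ε * X * Lg := by positivity
    linarith only [h7, h8]
  exact by
   have t4 : N * ((X - S) * Lg) ≤ ε / 5 * X * Lg := by
     have h1 : X - S ≤ ε / (5 * (N + 1)) * X := by
       have h2 : ε / (10 * (N + 1)) * X + ε / (10 * (N + 1)) * X = ε / (5 * (N + 1)) * X := by
         field_simp
         ring
       linarith only [hSX, hn₀, hh, h2]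
     have h3 : N * ((X - S) * Lg) ≤ N * ((ε / (5 * (N + 1)) * X) * Lg) :=
       mul_le_mul_of_nonneg_left (mul_le_mul_of_nonneg_right h1 hLg.le) hN
     refine h3.trans ?_
     have h6 : N * ((ε / (5 * (N + 1)) * X) * Lg) = N / (N + 1) * (ε / 5 * X * Lg) := by
       field_simp
     rw [h6]
     have h7 : 0 ≤ ε / 5 * X * Lg := by positivity
     have h8 := mul_le_mul_of_nonneg_right hfr h7
     linarith only [h8]
   linarith only [hHS, hHX, t1, t2, t3, t4]

theorem nk_a1 {u n t : ℝ} (hu : u ≠ 0) (hn : n ≠ 0) : 8 / (u * n) * (n * t) = 8 / u * t := by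
  field_simp

theorem nk_a2 {x y : ℝ} (hx : x ≠ 0) : x * (y / x) = y := by
  field_simp

set_option maxHeartbeats 2000000 in
theorem nk_aux (hR : RROWStmt) (hGRD : GRDStmt) (hTAY : TAYStmt) (n K A : ℕ) (c ε : ℝ)
    (hc : 0 < c) (hε : 0 < ε) (hε1 : ε ≤ 1) :
    ∃ (κ π₀ ι ε' : ℝ) (k' X₀ : ℕ), 0 < κ ∧ κ ≤ 1 ∧ 0 < π₀ ∧ 0 < ι ∧ 0 < ε' ∧
      ∀ d : KDat n K, d.OK A → X₀ ≤ d.X → d.H1 ι k' ε' → d.toR.H2 ι → d.toR.H5 c κ π₀ ∅ →
        H d.P (fun ω => d.v (d.L ω)) ≤ ε * d.X * Real.log 2 := by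
  classical
  have hl2 : 0 < Real.log 2 := Real.log_pos (by norm_num)
  have hl3 : 0 < Real.log 3 := Real.log_pos (by norm_num)
  obtain ⟨u, hu, -, hR1⟩ := hR A c hc
  set N : ℕ := Fintype.card (Mon n K) with hNdef
  have hN0 : (0 : ℝ) ≤ N := Nat.cast_nonneg _
  set β : ℝ := Real.log 2 + N * Real.log 3 with hβ
  have hβ0 : 0 ≤ β := by positivity
  set η₂ : ℝ := ε / (20 * ((N : ℝ) + 1)) with hη₂
  set π₁ : ℝ := ε / (40 * ((N : ℝ) + 1)) with hπ₁
  set e : ℝ := ε * u / (40 * ((N : ℝ) + 1)) with he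
  set κ₂ : ℝ := ε / (10 * ((N : ℝ) + 1)) with hκ₂
  have hη₂0 : 0 < η₂ := by positivity
  have hπ₁0 : 0 < π₁ := by positivity
  have he0 : 0 < e := by positivity
  have hκ₂0 : 0 < κ₂ := by positivity
  have hκ₂1 : κ₂ ≤ 1 / 10 := by
    rw [hκ₂, div_le_div_iff₀ (by positivity) (by norm_num)]
    linarith only [hε1]
  obtain ⟨κ₀, hκ₀⟩ : ∃ κ₀ : ℕ, 5 * β / (ε * Real.log 2) + 1 ≤ κ₀ := exists_nat_ge _
  have hκ₀1 : 1 ≤ (κ₀ : ℝ) := by
    have : 0 ≤ 5 * β / (ε * Real.log 2) := by positivity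
    linarith only [hκ₀, this]
  obtain ⟨C, k', m, n₁, hSP⟩ := nc_prob hGRD hTAY n K (u / 16) η₂ (by positivity) hη₂0
  obtain ⟨Cl, hCl, hLip⟩ := mono_lip hTAY n K
  obtain ⟨k, hk⟩ := pow_unbounded_of_one_lt ((N : ℝ) * Cl) (show (1 : ℝ) < 2 by norm_num)
  set k₁ : ℕ := κ₀ + C with hk₁
  obtain ⟨δ, hδ, hR2⟩ := hR1 k k₁ (2 ^ N) e he0
  obtain ⟨π₀, X₁, hπ₀, hR3⟩ := hR2 (κ₂ / 16) π₁ (by positivity) (by linarith only [hκ₂0, hκ₂1]) hπ₁0
  set ι : ℝ := min (δ / 2) (κ₂ / (2 * ((m : ℝ) + 1))) with hι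
  exact by
   have hι0 : 0 < ι := lt_min (by positivity) (by positivity)
   obtain ⟨Xr, hXr⟩ : ∃ Xr : ℕ, (N : ℝ) * ((κ₀ : ℝ) + 2) / (ε / 5) + 16 / κ₂ +
     2 * ((n₁ : ℝ) + 1) / κ₂ + 2 * ((m : ℝ) + 2) ≤ Xr := exists_nat_ge _
   refine ⟨κ₂ / 16, π₀, ι, 1, k', X₁ + Xr, by positivity, by linarith only [hκ₂0, hκ₂1], hπ₀, hι0, one_pos, ?_⟩
   intro d hOK hX h1 h2 h5
   have hP := hOK.law
   have hP0 := hP.nonneg
   have hX0 : (0 : ℝ) ≤ d.X := Nat.cast_nonneg _
   have hXr' : (Xr : ℝ) ≤ d.X := by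
     have : Xr ≤ d.X := by omega
     exact_mod_cast this
   have hc1 : 0 ≤ (N : ℝ) * ((κ₀ : ℝ) + 2) / (ε / 5) := by positivity
   have hc2 : 0 ≤ 16 / κ₂ := by positivity
   have hc3 : 0 ≤ 2 * ((n₁ : ℝ) + 1) / κ₂ := by positivity
   have hc4 : 0 ≤ 2 * ((m : ℝ) + 2) := by positivity
   have x1 : (N : ℝ) * ((κ₀ : ℝ) + 2) ≤ ε / 5 * d.X := by
     have : (N : ℝ) * ((κ₀ : ℝ) + 2) / (ε / 5) ≤ d.X := by linarith only [hκ₂0, hκ₂1, hXr, hXr', hc2, hc3]
     rw [div_le_iff₀ (by positivity)] at this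
     linarith only [this]
   have x2 : 16 ≤ d.X * κ₂ := by
     rw [← div_le_iff₀ hκ₂0]
     linarith only [hκ₂0, hκ₂1, hXr, hXr', hc1, hc3]
   have x3 : 2 * ((n₁ : ℝ) + 1) ≤ d.X * κ₂ := by
     rw [← div_le_iff₀ hκ₂0]
     linarith only [hκ₂0, hκ₂1, hXr, hXr', hc1, hc2]
   have x4 : 2 * ((m : ℝ) + 2) ≤ d.X := by linarith only [hXr, hXr', hc1, hc2, hc3]
   obtain ⟨n₀, hn⟩ : ∃ n₀ : ℕ, n₀ = ⌊κ₂ * d.X⌋₊ := ⟨_, rfl⟩
   obtain ⟨h, hh⟩ : ∃ h : ℕ, h = ⌊κ₂ / 16 * d.X⌋₊ := ⟨_, rfl⟩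
   have hn1 : (n₀ : ℝ) ≤ κ₂ * d.X := by rw [hn]; exact Nat.floor_le (by positivity)
   have hn2 : κ₂ * d.X < n₀ + 1 := by rw [hn]; exact Nat.lt_floor_add_one _
   exact by
    have hh1 : (h : ℝ) ≤ κ₂ / 16 * d.X := by rw [hh]; exact Nat.floor_le (by positivity)
    have hh2 : 1 ≤ h := by
      rw [hh]
      refine Nat.le_floor ?_
      push_cast
      linarith only [x2]
    have hnn₁ : n₁ ≤ n₀ := by
      have : (n₁ : ℝ) < ((n₀ + 1 : ℕ) : ℝ) := by push_cast; linarith only [hκ₂0, hκ₂1, x2, x3, hn2]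
      have : n₁ < n₀ + 1 := by exact_mod_cast this
      omega
    have hnh : 4 * h ≤ n₀ := by
      have : ((4 * h : ℕ) : ℝ) < ((n₀ + 1 : ℕ) : ℝ) := by
        push_cast
        linarith only [hκ₂0, hκ₂1, x2, hn2, hh1]
      have : 4 * h < n₀ + 1 := by exact_mod_cast this
      omega
    have hn₀0 : 0 < n₀ := by omega
    have hn₀' : (0 : ℝ) < n₀ := Nat.cast_pos.2 hn₀0
    have hnX : 10 * n₀ ≤ d.X := by
      have : ((10 * n₀ : ℕ) : ℝ) ≤ (d.X : ℝ) := by
        push_cast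
        nlinarith only [hn1, hκ₂1]
      exact_mod_cast this
    have hmX : n₀ + m ≤ d.X := by
      have h6 : ((10 * n₀ : ℕ) : ℝ) ≤ (d.X : ℝ) := by exact_mod_cast hnX
      have : ((n₀ + m : ℕ) : ℝ) ≤ (d.X : ℝ) := by
        push_cast at h6 ⊢
        linarith only [hκ₂0, hκ₂1, hXr, hXr', hc1, hc2, hc3, x2, hn2, h6]
      exact_mod_cast this
    -- the rows
    exact by
     have hMI : Pool.KVA.MI d.P d.T d.L (fun _ => ()) ≤ ι * d.X := h1.1
     have hιδ : 2 * ι ≤ δ := by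
       have := min_le_left (δ / 2) (κ₂ / (2 * ((m : ℝ) + 1)))
       linarith only [this]
     obtain ⟨J, hJ1, hRow⟩ := hR3 d.toR ∅ ⟨hOK.law, hOK.hN, hOK.hZ⟩ (by
         show X₁ ≤ d.X
         omega) (by
         refine le_trans (show _ ≤ ι * (d.toR.X : ℝ) from h2) ?_
         refine mul_le_mul_of_nonneg_right ?_ (Nat.cast_nonneg _)
         linarith only [hι0, hιδ]) h5
     have hJ1' : Pr d.P {ω | ∃ j : ℕ, j ∉ (∅ : Set ℕ) ∧ (j + 2) * h ≤ d.X ∧
         (Set.ncard {r | r ∈ J ω ∧ j * h ≤ r ∧ r < (j + 1) * h} : ℝ) < u * h} ≤ π₁ := by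
       rw [hh]
       exact hJ1
     set S : ℕ := d.X - n₀ - 2 * h with hS
     have hSX : S + n₀ + 2 * h = d.X := by omega
     -- heavy rows at all depths
     have hheavy : ∀ s < S, Pr d.P {v | (Set.ncard {i | i < n₀ ∧ s + i ∈ J v} : ℝ) < u / 2 * n₀} ≤
         π₁ := by
       intro s hs
       refine le_trans (Pr_le hP0 fun ω _ hω => ?_) hJ1'
       by_contra hcon
       have hall : ∀ j : ℕ, (j + 2) * h ≤ d.X →
           u * h ≤ (Set.ncard {r | r ∈ J ω ∧ j * h ≤ r ∧ r < (j + 1) * h} : ℝ) := by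
         intro j hj
         by_contra h7
         exact hcon ⟨j, fun h => h, hj, not_le.1 h7⟩
       have h8 := Pool.M5.NP.count_rows (J ω) (X := d.X) (n := n₀) (h := h) (i₀ := 0) (s := s)
         (u := u) hh2 hu.le hall (by omega) (by omega)
       have hω' : (Set.ncard {i | i < n₀ ∧ s + i ∈ J ω} : ℝ) < u / 2 * n₀ := hω
       have h9 : (Set.ncard {i | i < n₀ ∧ s + i ∈ J ω} : ℝ) =
           (((Finset.Ico 0 n₀).filter fun i => s + i ∈ J ω).card : ℝ) := by
         rw [← Set.ncard_coe_finset]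
         congr 2
         ext i
         simp
       rw [h9] at hω'
       linarith only [h8, hω']
     exact by
      have hNC := hSP d.Om d.Lam d.P d.L (tm d) d.X n₀ ι hP (fun ω j => hOK.hth (d.T ω) j) hnn₁ hn₀0
        hmX h1.2.1 h1.2.2 (by
          have h6 : ι ≤ κ₂ / (2 * ((m : ℝ) + 1)) := min_le_right _ _
          have h7 : (m : ℝ) * (ι * d.X) ≤ m * (κ₂ / (2 * ((m : ℝ) + 1)) * d.X) :=
            mul_le_mul_of_nonneg_left (mul_le_mul_of_nonneg_right h6 hX0) (Nat.cast_nonneg _)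
          have h8 : (m : ℝ) * (κ₂ / (2 * ((m : ℝ) + 1)) * d.X) ≤ κ₂ * d.X / 2 := by
            have h9 : (m : ℝ) / ((m : ℝ) + 1) ≤ 1 := by
              rw [div_le_one (by positivity)]
              linarith only [hκ₂0, hκ₂1]
            have h10 : (m : ℝ) * (κ₂ / (2 * ((m : ℝ) + 1)) * d.X) =
                (m : ℝ) / ((m : ℝ) + 1) * (κ₂ * d.X / 2) := by
              field_simp
            rw [h10]
            have h11 : 0 ≤ κ₂ * d.X / 2 := by positivity
            have := mul_le_mul_of_nonneg_right h9 h11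
            linarith only [this]
          linarith only [hκ₂0, hκ₂1, x2, hn2, h7, h8])
      -- the cells
      have hVdet : Det d.P d.L (Vr d) := fun ω ω' _ _ hL => by
        funext s
        unfold Vr
        rw [hL]
      have hcell : ∀ s < S, Pr (dbl d.P (cel (Vr d) s)) {z | (2 : ℝ) ^ (-((s : ℤ) + κ₀)) ≤
          ‖Vr d z.1 - Vr d z.2‖} ≤ η₂ + 2 * π₁ + 8 / (u * n₀) * ∑ i ∈ range n₀,
            Pr (dbl (Qp d.P d.L (cel (tm d)) i) (fun w => ((), (), cel (Vr d) s w.1)))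
              {z | z.1 ∈ Hit J (ph d) s i k₁ (Vr d z.1.1 - Vr d z.2.1)} := by
        intro s hs
        have := cell_bound d.L (cel (tm d)) (ph d) (Vr d) J hP (cel (Vr d) s) hVdet
          (fun ω ω' a b hL => by
            unfold cel
            rw [hVdet ω ω' a b hL]) (n₀ := n₀) (C := C) (k₁ := k₁) (s := s) (by omega) hu hn₀0
          (π₁ := π₁) (η := η₂) hNC (hheavy s hs)
          (fun i w => ((), (), cel (Vr d) s w.1)) (fun i _ w w' _ _ => by
            simp only [Prod.mk.injEq, true_and])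
        have e1 : k₁ - C = κ₀ := by omega
        rw [e1] at this
        exact this
      exact by
       have hsum := cel_sum hP (Vr d) κ₀ S (by
         have : (0 : ℝ) < κ₀ := by linarith only [hκ₂0, hκ₂1, hκ₀1]
         exact_mod_cast this) _ hcell
       have hrowK := fun i => rowK d hOK (ι := ι) (δ := δ) (e := e) (C := Cl) hιδ hδ.le hMI J k k₁
         hLip hCl hk.le hRow i
       have hSg : ∑ s ∈ range S, (η₂ + 2 * π₁ + 8 / (u * n₀) * ∑ i ∈ range n₀,
             Pr (dbl (Qp d.P d.L (cel (tm d)) i) (fun w => ((), (), cel (Vr d) s w.1)))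
               {z | z.1 ∈ Hit J (ph d) s i k₁ (Vr d z.1.1 - Vr d z.2.1)}) ≤
           S * (η₂ + 2 * π₁) + 8 / u * (e * d.X) := by
         rw [Finset.sum_add_distrib, Finset.sum_const, Finset.card_range, nsmul_eq_mul,
           ← Finset.mul_sum, Finset.sum_comm]
         refine add_le_add le_rfl ?_
         have h6 : ∀ i ∈ range n₀, ∑ s ∈ range S,
             Pr (dbl (Qp d.P d.L (cel (tm d)) i) (fun w => ((), (), cel (Vr d) s w.1)))
               {z | z.1 ∈ Hit J (ph d) s i k₁ (Vr d z.1.1 - Vr d z.2.1)} ≤ e * d.X := by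
           intro i _
           refine le_trans ?_ (hrowK i)
           refine Finset.sum_le_sum_of_subset_of_nonneg ?_ ?_
           · intro s hs
             rw [Finset.mem_range] at hs ⊢
             omega
           · intro s _ _
             exact Pr_nn (fun z => dbl_nonneg (fun w => dbl_nonneg hP0 _ w) _ z) _
         have h7 := Finset.sum_le_sum h6
         rw [Finset.sum_const, Finset.card_range, nsmul_eq_mul] at h7
         have h8 := mul_le_mul_of_nonneg_left h7 (show (0 : ℝ) ≤ 8 / (u * n₀) by positivity)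
         exact h8.trans (le_of_eq (nk_a1 hu.ne' hn₀'.ne'))
       have hH0 := H_cel_base hP (Vr d) (fun ω j => hOK.hv (d.L ω) j) κ₀
       have htop : H d.P (fun ω => d.v (d.L ω)) = H d.P (cel (Vr d) d.X) := by
         congr 1
         funext ω
         funext j
         unfold cel Vr
         have h6 : (2 : ℝ) ^ d.X * ((d.v (d.L ω) j : ℝ) / 2 ^ d.X) = (d.v (d.L ω) j : ℝ) :=
           nk_a2 (by positivity)
         rw [h6, Int.floor_intCast]
       exact by
        have hHX : H d.P (cel (Vr d) d.X) ≤ H d.P (cel (Vr d) S) + N * (((d.X : ℝ) - S) * Real.log 2) := by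
          have h6 := ch_cel_le hP (Vr d) S (n₀ + 2 * h)
          have h7 : S + (n₀ + 2 * h) = d.X := by omega
          rw [h7, CH_cel hP (Vr d) (by omega)] at h6
          have h8 : ((n₀ + 2 * h : ℕ) : ℝ) = (d.X : ℝ) - S := by
            rw [← h7]
            push_cast
            ring
          rw [h8] at h6
          linarith only [h6]
        rw [htop]
        refine nk_arith (N := N) (ε := ε) (u := u) (Lg := Real.log 2) (β := β) (X := d.X) (S := S)
          (n₀ := n₀) (h := h) (κ₀ := κ₀) (e := e) (π₁ := π₁) (η₂ := η₂) (Sg := _)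
          (H0 := H d.P (cel (Vr d) κ₀)) (HS := H d.P (cel (Vr d) S)) hN0 hε hu hl2 hX0 (by linarith only [hκ₂0, hκ₂1, hκ₀1])
          hβ0 (by linarith only [hκ₂0, hκ₂1, hκ₀]) ?_ ?_ hn1 ?_ rfl rfl rfl x1 hH0 hsum (Nat.cast_nonneg _) hSg hHX
        · have : S ≤ d.X := by omega
          exact_mod_cast this
        · have : (d.X : ℝ) = S + n₀ + 2 * h := by
            rw [← hSX]
            push_cast
            ring
          linarith only [this]
        · linarith only [hκ₂0, hκ₂1, x2, hh1]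

/-- **NK**: the prediction lemma in several variables. -/
theorem nk_thm (hR : RROWStmt) (hGRD : GRDStmt) (hTAY : TAYStmt) : NKStmt := by
  intro n K A c ε hc hε
  rcases le_or_gt ε 1 with h1 | h1
  · exact nk_aux hR hGRD hTAY n K A c ε hc hε h1
  · obtain ⟨κ, π₀, ι, ε', k', X₀, a1, a2, a3, a4, a5, h⟩ :=
      nk_aux hR hGRD hTAY n K A c 1 hc one_pos le_rfl
    refine ⟨κ, π₀, ι, ε', k', X₀, a1, a2, a3, a4, a5, fun d b1 b2 b3 b4 b5 => ?_⟩
    refine (h d b1 b2 b3 b4 b5).trans ?_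
    refine mul_le_mul_of_nonneg_right ?_ (Real.log_nonneg (by norm_num))
    exact mul_le_mul_of_nonneg_right h1.le (Nat.cast_nonneg _)

end Pool.FR
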