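import Pool.Agent.H11.FR.Tel
import Pool.Agent.H48.M5.Stmts

/-!
# The prediction lemma: pairs of samples are not concentrated near a hyperplane
-/

set_option autoImplicit false

namespace Pool.FR

open Finset Real
open Pool.Agent.H49.Ent Pool.Agent.H32.Dense Pool.STK Pool.KAF Pool.OC

/-- If the conditional entropy is nearly maximal, small sets have small probability. -/
theorem pr_small {Ω S T : Type} [Fintype Ω] {p : Ω → ℝ} (hp : IsLaw p) (X : Ω → S) (Y : Ω → T)
    (N F : T → Finset S) {M σ d : ℝ} (hM : 0 < M) (hσ : 0 < σ) (hσ1 : σ ≤ 1)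
    (hN : ∀ t, ((N t).card : ℝ) ≤ σ * M) (hF : ∀ t, ((F t).card : ℝ) ≤ M)
    (hX : ∀ ω, 0 < p ω → X ω ∈ F (Y ω)) (hd : Real.log M - d ≤ CH p X Y) :
    Pr p {ω | X ω ∈ N (Y ω)} * Real.log (1 / σ) ≤ d + Real.log 2 := by
  classical
  have h := CH_le_cross hp.nonneg hp.sum_one X Y
    (fun w x => (if x ∈ N w then (2 * (σ * M))⁻¹ else 0) + (if x ∈ F w then (2 * M)⁻¹ else 0))
    (by
      intro ω hω
      rw [if_pos (hX ω hω)]
      have : 0 < (2 * M)⁻¹ := by positivity
      split_ifs <;> positivity)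
    (by intro w x; split_ifs <;> positivity)
    (by
      intro ω _ G
      rw [Finset.sum_add_distrib, ← Finset.sum_filter, ← Finset.sum_filter, Finset.sum_const,
        Finset.sum_const, nsmul_eq_mul, nsmul_eq_mul]
      have h1 : (((G.filter fun x => x ∈ N (Y ω)).card : ℕ) : ℝ) ≤ σ * M := by
        refine le_trans ?_ (hN (Y ω))
        exact_mod_cast Finset.card_le_card fun x hx => (Finset.mem_filter.mp hx).2
      have h2 : (((G.filter fun x => x ∈ F (Y ω)).card : ℕ) : ℝ) ≤ M := by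
        refine le_trans ?_ (hF (Y ω))
        exact_mod_cast Finset.card_le_card fun x hx => (Finset.mem_filter.mp hx).2
      have h3 := mul_le_mul_of_nonneg_right h1 (show 0 ≤ (2 * (σ * M))⁻¹ by positivity)
      have h4 := mul_le_mul_of_nonneg_right h2 (show 0 ≤ (2 * M)⁻¹ by positivity)
      have h5 : σ * M * (2 * (σ * M))⁻¹ = 1 / 2 := by field_simp
      have h6 : M * (2 * M)⁻¹ = 1 / 2 := by field_simp
      linarith)
  have hlσ : Real.log (1 / σ) = -Real.log σ := by rw [one_div, Real.log_inv]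
  have hlσ0 : 0 ≤ Real.log (1 / σ) := Real.log_nonneg (by
    rw [le_div_iff₀ hσ]; linarith)
  have hpt : Ex p (fun ω => -Real.log ((if X ω ∈ N (Y ω) then (2 * (σ * M))⁻¹ else 0) +
      (if X ω ∈ F (Y ω) then (2 * M)⁻¹ else 0))) ≤
      Ex p (fun ω => (Real.log 2 + Real.log M) +
        (-Real.log (1 / σ)) * (if X ω ∈ N (Y ω) then 1 else 0)) := by
    refine Ex_mono hp.nonneg fun ω hω => ?_
    rw [if_pos (hX ω hω)]
    by_cases h1 : X ω ∈ N (Y ω)
    · rw [if_pos h1, if_pos h1]
      have h3 : (2 * (σ * M))⁻¹ ≤ (2 * (σ * M))⁻¹ + (2 * M)⁻¹ := by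
        have : 0 < (2 * M)⁻¹ := by positivity
        linarith
      have h4 := Real.log_le_log (by positivity) h3
      rw [Real.log_inv, Real.log_mul (by norm_num) (by positivity),
        Real.log_mul (by positivity) (by positivity)] at h4
      rw [hlσ]
      linarith
    · rw [if_neg h1, if_neg h1, zero_add, Real.log_inv, neg_neg,
        Real.log_mul (by norm_num) (by positivity)]
      linarith
  rw [Ex_add, Ex_const hp.sum_one, Ex_smul] at hpt
  have hE : Ex p (fun ω => if X ω ∈ N (Y ω) then (1 : ℝ) else 0) = Pr p {ω | X ω ∈ N (Y ω)} := by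
    rw [Pr_sum]
    unfold Ex
    refine Finset.sum_congr rfl fun ω _ => ?_
    congr 1
    by_cases h1 : X ω ∈ N (Y ω)
    · simp only
      rw [if_pos h1, if_pos (show ω ∈ {ω | X ω ∈ N (Y ω)} from h1)]
    · simp only
      rw [if_neg h1, if_neg (show ¬ ω ∈ {ω | X ω ∈ N (Y ω)} from h1)]
  rw [hE] at hpt
  have := h.trans hpt
  nlinarith

/-- Integers in an interval. -/
theorem card_int_le (A : Finset ℤ) (b R : ℝ) (hR : 0 ≤ R) (h : ∀ x ∈ A, |(x : ℝ) - b| < R) :
    (A.card : ℝ) ≤ 2 * R + 1 := by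
  have hsub : A ⊆ Finset.Icc ⌈b - R⌉ ⌊b + R⌋ := by
    intro x hx
    have := abs_lt.1 (h x hx)
    rw [Finset.mem_Icc, Int.ceil_le, Int.le_floor]
    constructor <;> linarith
  have h1 : (A.card : ℝ) ≤ ((Finset.Icc ⌈b - R⌉ ⌊b + R⌋).card : ℝ) := by
    exact_mod_cast Finset.card_le_card hsub
  refine h1.trans ?_
  rw [Int.card_Icc]
  have h2 := Int.le_ceil (b - R)
  have h3 := Int.floor_le (b + R)
  rcases le_or_gt 0 (⌊b + R⌋ + 1 - ⌈b - R⌉) with h4 | h4
  · have h5 : (((⌊b + R⌋ + 1 - ⌈b - R⌉).toNat : ℤ) : ℝ) = ((⌊b + R⌋ + 1 - ⌈b - R⌉ : ℤ) : ℝ) := by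
      rw [Int.toNat_of_nonneg h4]
    rw [show (((⌊b + R⌋ + 1 - ⌈b - R⌉).toNat : ℕ) : ℝ) =
      (((⌊b + R⌋ + 1 - ⌈b - R⌉).toNat : ℤ) : ℝ) by norm_cast, h5]
    push_cast
    linarith
  · rw [Int.toNat_of_nonpos h4.le]
    push_cast
    linarith

/-- The children of a cell near a hyperplane. -/
theorem slab_card {ι : Type} [Fintype ι] (κ : ℕ) (g : ι → ℤ) (a : ι → ℝ) (j : ι)
    (ha : 0 < |a j|) (b R : ℝ) (hR : 0 ≤ R) (A : Finset (ι → ℤ)) (hA : A ⊆ chil κ g)
    (h : ∀ u ∈ A, |∑ i, a i * (u i : ℝ) - b| < |a j| * R) :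
    (A.card : ℝ) ≤ (2 * R + 1) / 2 ^ κ * 2 ^ (κ * Fintype.card ι) := by
  classical
  -- forget the coordinate `j`
  set f : (ι → ℤ) → (ι → ℤ) := fun u => Function.update u j 0 with hf
  set B : Finset (ι → ℤ) := Fintype.piFinset fun i =>
    if i = j then {0} else Finset.Ico (2 ^ κ * g i) (2 ^ κ * (g i + 1)) with hB
  have hmap : ∀ u ∈ A, f u ∈ B := by
    intro u hu
    have h1 := hA hu
    unfold chil at h1
    rw [Fintype.mem_piFinset] at h1
    rw [hB, Fintype.mem_piFinset]
    intro i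
    by_cases hi : i = j
    · subst hi
      rw [if_pos rfl, hf]
      simp
    · rw [if_neg hi, hf]
      simp only [Function.update_of_ne hi]
      have := h1 i
      convert this using 2
  have hfib : ∀ v ∈ B, (((A.filter fun u => f u = v).card : ℕ) : ℝ) ≤ 2 * R + 1 := by
    intro v _
    -- the fibre is determined by the coordinate `j`
    have hinj : Set.InjOn (fun u : ι → ℤ => u j) (A.filter fun u => f u = v) := by
      intro u hu u' hu' he
      rw [Finset.coe_filter] at hu hu'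
      have h1 : f u = f u' := hu.2.trans hu'.2.symm
      funext i
      by_cases hi : i = j
      · subst hi
        exact he
      · have := congrFun h1 i
        rw [hf] at this
        simpa only [Function.update_of_ne hi] using this
    rw [← Finset.card_image_of_injOn hinj]
    refine card_int_le _ ((b - ∑ i ∈ univ.erase j, a i * (v i : ℝ)) / a j) R hR fun x hx => ?_
    rw [Finset.mem_image] at hx
    obtain ⟨u, hu, rfl⟩ := hx
    rw [Finset.mem_filter] at hu
    have h1 := h u hu.1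
    have h2 : ∀ i ∈ univ.erase j, a i * (v i : ℝ) = a i * (u i : ℝ) := by
      intro i hi
      rw [← hu.2, hf]
      simp only [Function.update_of_ne (Finset.ne_of_mem_erase hi)]
    rw [Finset.sum_congr rfl h2]
    rw [← Finset.add_sum_erase _ _ (Finset.mem_univ j)] at h1
    have haj : a j ≠ 0 := by
      intro h0
      rw [h0, abs_zero] at ha
      exact lt_irrefl _ ha
    have h3 : ((u j : ℤ) : ℝ) - (b - ∑ i ∈ univ.erase j, a i * (u i : ℝ)) / a j =
        (a j * (u j : ℝ) + ∑ i ∈ univ.erase j, a i * (u i : ℝ) - b) / a j := by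
      field_simp
      ring
    rw [h3, abs_div, div_lt_iff₀ ha, mul_comm R]
    exact h1
  have hcard := Finset.card_eq_sum_card_fiberwise hmap
  have hBc : (B.card : ℝ) * 2 ^ κ = 2 ^ (κ * Fintype.card ι) := by
    rw [hB, Fintype.card_piFinset]
    have h1 : ∏ i, (if i = j then ({0} : Finset ℤ) else
        Finset.Ico (2 ^ κ * g i) (2 ^ κ * (g i + 1))).card =
        ∏ i ∈ univ.erase j, 2 ^ κ := by
      rw [← Finset.mul_prod_erase _ _ (Finset.mem_univ j), if_pos rfl, Finset.card_singleton,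
        one_mul]
      refine Finset.prod_congr rfl fun i hi => ?_
      rw [if_neg (Finset.ne_of_mem_erase hi), Int.card_Ico]
      have : (2 : ℤ) ^ κ * (g i + 1) - 2 ^ κ * g i = ((2 ^ κ : ℕ) : ℤ) := by push_cast; ring
      rw [this, Int.toNat_natCast]
    rw [h1, Finset.prod_const, Finset.card_erase_of_mem (Finset.mem_univ j), Finset.card_univ]
    push_cast
    rw [← pow_succ]
    have h2 : 0 < Fintype.card ι := Fintype.card_pos_iff.2 ⟨j⟩
    rw [Nat.sub_add_cancel h2, ← pow_mul]
  have h5 : (A.card : ℝ) ≤ B.card * (2 * R + 1) := by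
    rw [hcard]
    push_cast
    refine (Finset.sum_le_sum fun v hv => hfib v hv).trans ?_
    rw [Finset.sum_const, nsmul_eq_mul]
  refine h5.trans (le_of_eq ?_)
  rw [← hBc]
  field_simp

end Pool.FR
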