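import Pool.Agent.H11.FR.SP
import Pool.Agent.H1.M5.TAY

/-!
# The prediction lemma: pairs of samples are not concentrated near a hyperplane, mean form
-/

set_option autoImplicit false

namespace Pool.FR

open Finset Real
open Pool.Agent.H49.Ent Pool.Agent.H32.Dense Pool.STK Pool.KAF Pool.OC Pool.M5

/-- GRD: the gradient of a polynomial is small at few points of a grid. -/
def GRDStmt : Prop :=
  ∀ (n K : ℕ) (σ : ℝ), 0 < σ → ∃ (δ : ℝ) (M₀ : ℕ), 0 < δ ∧ ∀ M : ℕ, M₀ ≤ M →
    ∀ a : Mon n K → ℝ, 1 ≤ ‖a‖ →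
      ((open Classical in univ.filter fun c : Fin n → Fin M => ∀ j, |∑ s : Mon n K, a s *
        dmono (s : Fin n → ℕ) (fun i => ((c i : ℕ) : ℝ) / M) j| < δ).card : ℝ) ≤ σ * M ^ n

variable {Ω Λ : Type} [Fintype Ω] {n K : ℕ} {p : Ω → ℝ} (L : Ω → Λ) (th : Ω → Fin n → ℝ)

/-- The deficit of the digits. -/
noncomputable def Df (p : Ω → ℝ) (L : Ω → Λ) (th : Ω → Fin n → ℝ) (i : ℕ) : ℝ :=
  n * (i * Real.log 2) - CH p (cel th i) L

theorem ch_cel_chain (hp : IsLaw p) {i i' : ℕ} (h : i ≤ i') :
    CH p (cel th i') (fun ω => (L ω, cel th i ω)) = CH p (cel th i') L - CH p (cel th i) L := by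
  have h1 := CH_chain hp.nonneg (cel th i') (cel th i) L
  have h2 : CH p (fun ω => (cel th i' ω, cel th i ω)) L = CH p (cel th i') L := by
    refine CH_congr hp.nonneg ?_ ?_ (fun _ _ _ _ e => e) (fun _ _ _ _ e => e)
    · intro ω ω' _ _ e
      simp only [Prod.mk.injEq] at e
      exact e.1.1
    · intro ω ω' a b e
      simp only [Prod.mk.injEq] at e
      exact Prod.ext e.1 (cel_det th h ω ω' a b e.1)
  have h3 : CH p (cel th i') (fun ω => (cel th i ω, L ω)) =
      CH p (cel th i') (fun ω => (L ω, cel th i ω)) := by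
    refine CH_congr hp.nonneg ?_ ?_ ?_ ?_ <;>
    · intro ω ω' _ _ e
      simp only [Prod.mk.injEq] at e ⊢
      tauto
  linarith

theorem ch_cel_ctx_le (hp : IsLaw p) (i m : ℕ) :
    CH p (cel th (i + m)) (fun ω => (L ω, cel th i ω)) ≤ n * (m * Real.log 2) := by
  have h1 : CH p (cel th (i + m)) (fun ω => (L ω, cel th i ω)) ≤
      CH p (cel th (i + m)) (cel th i) :=
    CH_mono_cond hp.nonneg fun _ _ _ _ e => (Prod.ext_iff.1 e).2
  have h2 := ch_cel_le hp th i m
  rw [Fintype.card_fin] at h2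
  exact h1.trans h2

theorem Df_mono (hp : IsLaw p) {i i' : ℕ} (h : i ≤ i') : Df p L th i ≤ Df p L th i' := by
  obtain ⟨m, rfl⟩ := Nat.exists_eq_add_of_le h
  have h1 := ch_cel_chain L th hp (Nat.le_add_right i m)
  have h2 := ch_cel_ctx_le L th hp i m
  unfold Df
  push_cast
  have : (n : ℝ) * ((i + m) * Real.log 2) = n * (i * Real.log 2) + n * (m * Real.log 2) := by ring
  linarith

theorem Df_zero (hp : IsLaw p) (hth : ∀ ω j, 0 ≤ th ω j ∧ th ω j < 1) : Df p L th 0 = 0 := by
  unfold Df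
  have : CH p (cel th 0) L = 0 := by
    refine CH_eq_zero hp.nonneg fun ω ω' _ _ _ => ?_
    funext j
    unfold cel
    have h1 : ⌊(2 : ℝ) ^ 0 * th ω j⌋ = 0 := by
      rw [Int.floor_eq_iff]
      have := hth ω j
      push_cast
      constructor <;> linarith
    have h2 : ⌊(2 : ℝ) ^ 0 * th ω' j⌋ = 0 := by
      rw [Int.floor_eq_iff]
      have := hth ω' j
      push_cast
      constructor <;> linarith
    rw [h1, h2]
  rw [this]
  push_cast
  ring

/-- The sum of the deficits. -/
theorem Df_sum (hp : IsLaw p) (hth : ∀ ω j, 0 ≤ th ω j ∧ th ω j < 1) {n₀ m X : ℕ}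
    (hX : n₀ + m ≤ X) :
    ∑ i ∈ range n₀, (Df p L th (i + m) - Df p L th i) ≤ m * Df p L th X := by
  have h3 : ∀ S, ∑ s ∈ range S, (Df p L th (s + m) - Df p L th s) =
      ∑ s ∈ range m, Df p L th (S + s) - ∑ s ∈ range m, Df p L th s := by
    intro S
    induction S with
    | zero => simp
    | succ S ih =>
      rw [Finset.sum_range_succ, ih]
      have e2 := Finset.sum_range_succ (fun s => Df p L th (S + s)) m
      have e3 := Finset.sum_range_succ' (fun s => Df p L th (S + s)) m
      rw [e2] at e3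
      have e4 : ∑ s ∈ range m, Df p L th (S + 1 + s) = ∑ s ∈ range m, Df p L th (S + (s + 1)) :=
        Finset.sum_congr rfl fun s _ => by congr 1; ring
      rw [e4]
      simp only [add_zero] at e3
      linarith
  rw [h3]
  have h4 : ∑ s ∈ range m, Df p L th (n₀ + s) ≤ m * Df p L th X := by
    have := Finset.sum_le_sum (s := range m) (f := fun s => Df p L th (n₀ + s))
      (g := fun _ => Df p L th X) fun s hs => Df_mono L th hp (by
        have := Finset.mem_range.1 hs; omega)
    rwa [Finset.sum_const, Finset.card_range, nsmul_eq_mul] at this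
  have h5 : 0 ≤ ∑ s ∈ range m, Df p L th s :=
    Finset.sum_nonneg fun s _ => by
      rw [← Df_zero L th hp hth]
      exact Df_mono L th hp (Nat.zero_le _)
  linarith

/-- The gradient at the first digits of the time is small with small probability. -/
theorem grad_prob (hp : IsLaw p) (hth : ∀ ω j, 0 ≤ th ω j ∧ th ω j < 1) {σ δ : ℝ} {k' : ℕ}
    (hσ : 0 < σ) (hσ1 : σ ≤ 1) (hG : ∀ a : Mon n K → ℝ, 1 ≤ ‖a‖ →
      ((open Classical in univ.filter fun c : Fin n → Fin (2 ^ k') => ∀ j, |∑ s : Mon n K, a s *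
        dmono (s : Fin n → ℕ) (fun i => ((c i : ℕ) : ℝ) / (2 ^ k' : ℕ)) j| < δ).card : ℝ) ≤
        σ * (2 ^ k' : ℕ) ^ n)
    (hd : n * (k' * Real.log 2) - 1 ≤ CH p (cel th k') L) (lam : Λ → Mon n K → ℝ) :
    Pr p {ω | ‖lam (L ω)‖ = 1 ∧ ∀ j, |∑ s : Mon n K, lam (L ω) s *
      dmono (s : Fin n → ℕ) (fun i => (cel th k' ω i : ℝ) / 2 ^ k') j| < δ} *
      Real.log (1 / σ) ≤ 1 + Real.log 2 := by
  classical
  set N : Λ → Finset (Fin n → ℤ) := fun l => if ‖lam l‖ = 1 then
    (univ.filter fun c : Fin n → Fin (2 ^ k') => ∀ j, |∑ s : Mon n K, lam l s *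
        dmono (s : Fin n → ℕ) (fun i => ((c i : ℕ) : ℝ) / (2 ^ k' : ℕ)) j| < δ).image
      (fun c i => ((c i : ℕ) : ℤ)) else ∅ with hN
  have h := pr_small hp (cel th k') L N (fun _ => chil k' (0 : Fin n → ℤ))
    (M := 2 ^ (k' * n)) (σ := σ) (d := 1) (by positivity) hσ hσ1 (by
      intro l
      simp only [hN]
      split_ifs with h1
      · refine le_trans (Nat.cast_le.2 Finset.card_image_le) ?_
        refine le_trans (hG (lam l) h1.symm.le) (le_of_eq ?_)
        push_cast
        rw [← pow_mul]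
      · rw [Finset.card_empty, Nat.cast_zero]
        positivity) (by
      intro l
      rw [chil_card, Fintype.card_fin]) (by
      intro ω _
      have h1 := mem_chil th 0 k' ω
      rw [zero_add] at h1
      have h2 : cel th 0 ω = 0 := by
        funext j
        unfold cel
        rw [Pi.zero_apply, Int.floor_eq_iff]
        have := hth ω j
        push_cast
        constructor <;> linarith
      rwa [h2] at h1) (by
      rw [Real.log_pow]
      push_cast
      linarith)
  refine le_trans ?_ h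
  refine mul_le_mul_of_nonneg_right (Pr_le hp.nonneg fun ω _ hω => ?_) (Real.log_nonneg (by
    rw [le_div_iff₀ hσ]; linarith))
  obtain ⟨h1, h2⟩ := hω
  show cel th k' ω ∈ N (L ω)
  simp only [hN]
  rw [if_pos h1, Finset.mem_image]
  have hr : ∀ j, 0 ≤ cel th k' ω j ∧ cel th k' ω j < 2 ^ k' := by
    intro j
    unfold cel
    have := hth ω j
    have hpos : (0 : ℝ) < 2 ^ k' := by positivity
    constructor
    · exact Int.floor_nonneg.2 (mul_nonneg hpos.le this.1)
    · rw [Int.floor_lt]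
      push_cast
      nlinarith
  refine ⟨fun j => ⟨(cel th k' ω j).toNat, ?_⟩, ?_, ?_⟩
  · have := hr j
    zify
    rw [Int.toNat_of_nonneg this.1]
    exact this.2
  · rw [Finset.mem_filter]
    refine ⟨Finset.mem_univ _, fun j => ?_⟩
    have h3 := h2 j
    have h4 : ∀ i, (((cel th k' ω i).toNat : ℕ) : ℝ) = (cel th k' ω i : ℝ) := by
      intro i
      have h5 := Int.toNat_of_nonneg (hr i).1
      exact_mod_cast congrArg (fun z : ℤ => (z : ℝ)) h5
    simp only [h4]
    push_cast
    exact h3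
  · funext j
    exact Int.toNat_of_nonneg (hr j).1

end Pool.FR
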