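import Pool.Agent.H11.FR.SPa

/-!
# The prediction lemma: pairs of samples in one cell of the times
-/

set_option autoImplicit false

namespace Pool.FR

open Finset Real
open Pool.Agent.H49.Ent Pool.Agent.H32.Dense Pool.STK Pool.KAF Pool.OC Pool.M5

variable {Ω Λ : Type} [Fintype Ω] {n K : ℕ} {p : Ω → ℝ} (L : Ω → Λ) (th : Ω → Fin n → ℝ)

/-- The gradient. -/
noncomputable def grd (a : Mon n K → ℝ) (x : Fin n → ℝ) (j : Fin n) : ℝ :=
  ∑ s : Mon n K, a s * dmono (s : Fin n → ℕ) x j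

/-- Taylor's formula. -/
theorem tay_sum (b : Bas n (Mon n K)) (hg : ∀ i, b.g i = mono (i : Fin n → ℕ))
    (hD : ∀ i, b.D i = dmono (i : Fin n → ℕ)) (a : Mon n K → ℝ) (ha : ‖a‖ ≤ 1)
    {x x' x₀ : Fin n → ℝ} (hx : ∀ j, |x j| ≤ 1) (hx' : ∀ j, |x' j| ≤ 1) (hx₀ : ∀ j, |x₀ j| ≤ 1)
    {r ρ : ℝ} (h1 : ∀ j, |x j - x₀ j| ≤ r) (h2 : ∀ j, |x' j - x₀ j| ≤ r) (h3 : ‖x - x'‖ ≤ ρ)
    (hr : 0 ≤ r) :
    |∑ j, grd a x₀ j * (x j - x' j)| ≤
      |∑ s : Mon n K, a s * (mono (s : Fin n → ℕ) x - mono (s : Fin n → ℕ) x')| +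
        Fintype.card (Mon n K) * (b.C * r * ρ) := by
  have hC : 0 ≤ b.C := by linarith [b.hC]
  have e1 : ∑ j, grd a x₀ j * (x j - x' j) =
      ∑ s : Mon n K, a s * (mono (s : Fin n → ℕ) x - mono (s : Fin n → ℕ) x') -
      ∑ s : Mon n K, a s * (mono (s : Fin n → ℕ) x - mono (s : Fin n → ℕ) x' -
        ∑ j, dmono (s : Fin n → ℕ) x₀ j * (x j - x' j)) := by
    unfold grd
    rw [← Finset.sum_sub_distrib]
    simp only [Finset.sum_mul]
    rw [Finset.sum_comm]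
    refine Finset.sum_congr rfl fun s _ => ?_
    rw [← mul_sub, sub_sub_cancel, Finset.mul_sum]
    exact Finset.sum_congr rfl fun j _ => by ring
  rw [e1]
  refine (abs_sub _ _).trans ?_
  refine add_le_add le_rfl ?_
  refine (Finset.abs_sum_le_sum_abs _ _).trans ?_
  have e2 : ∀ s ∈ (univ : Finset (Mon n K)), |a s * (mono (s : Fin n → ℕ) x -
      mono (s : Fin n → ℕ) x' - ∑ j, dmono (s : Fin n → ℕ) x₀ j * (x j - x' j))| ≤
      b.C * r * ρ := by
    intro s _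
    rw [abs_mul]
    have t1 := b.tay s x x' x₀ hx hx' hx₀ r h1 h2
    rw [hg, hD] at t1
    have t2 : |a s| ≤ 1 := (norm_le_pi_norm a s).trans ha
    have t3 : b.C * r * ‖x - x'‖ ≤ b.C * r * ρ :=
      mul_le_mul_of_nonneg_left h3 (mul_nonneg hC hr)
    have t4 := abs_nonneg (mono (s : Fin n → ℕ) x -
      mono (s : Fin n → ℕ) x' - ∑ j, dmono (s : Fin n → ℕ) x₀ j * (x j - x' j))
    calc _ ≤ 1 * |mono (s : Fin n → ℕ) x -
      mono (s : Fin n → ℕ) x' - ∑ j, dmono (s : Fin n → ℕ) x₀ j * (x j - x' j)| :=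
          mul_le_mul_of_nonneg_right t2 t4
      _ ≤ _ := by linarith
  refine (Finset.sum_le_sum e2).trans ?_
  rw [Finset.sum_const, Finset.card_univ, nsmul_eq_mul]

omit [Fintype Ω] in
theorem cel_near (th : Ω → Fin n → ℝ) {i : ℕ} {ω ω' : Ω} (h : cel th i ω = cel th i ω')
    (j : Fin n) : |th ω j - th ω' j| ≤ 1 / 2 ^ i := by
  have h1 : ⌊(2 : ℝ) ^ i * th ω j⌋ = ⌊(2 : ℝ) ^ i * th ω' j⌋ := congrFun h j
  have e1 := Int.floor_le ((2 : ℝ) ^ i * th ω j)
  have e2 := Int.lt_floor_add_one ((2 : ℝ) ^ i * th ω j)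
  have e3 := Int.floor_le ((2 : ℝ) ^ i * th ω' j)
  have e4 := Int.lt_floor_add_one ((2 : ℝ) ^ i * th ω' j)
  rw [h1] at e1 e2
  have hpos : (0 : ℝ) < 2 ^ i := by positivity
  rw [le_div_iff₀ hpos, ← abs_of_pos hpos, ← abs_mul, abs_le]
  constructor <;> nlinarith

omit [Fintype Ω] in
theorem cel_off (th : Ω → Fin n → ℝ) (i : ℕ) (ω : Ω) (j : Fin n) :
    |th ω j - (cel th i ω j : ℝ) / 2 ^ i| ≤ 1 / 2 ^ i := by
  have e1 := Int.floor_le ((2 : ℝ) ^ i * th ω j)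
  have e2 := Int.lt_floor_add_one ((2 : ℝ) ^ i * th ω j)
  have hpos : (0 : ℝ) < 2 ^ i := by positivity
  have e5 : (cel th i ω j : ℝ) = ⌊(2 : ℝ) ^ i * th ω j⌋ := rfl
  rw [le_div_iff₀ hpos, ← abs_of_pos hpos, ← abs_mul, abs_of_pos hpos, sub_mul,
    div_mul_cancel₀ _ hpos.ne', e5, abs_le]
  constructor <;> nlinarith

theorem pair_prob (hp : IsLaw p) (hth : ∀ ω j, 0 ≤ th ω j ∧ th ω j < 1)
    (b : Bas n (Mon n K)) (hg : ∀ i, b.g i = mono (i : Fin n → ℕ))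
    (hD : ∀ i, b.D i = dmono (i : Fin n → ℕ)) {δ σ : ℝ} {C k' m : ℕ} (hδ : 0 < δ) (hσ : 0 < σ)
    (hσ1 : σ ≤ 1) (hk : Fintype.card (Mon n K) * b.C * 2 ^ C ≤ 2 ^ k')
    (hm : (2 * (2 ^ m * (2 / 2 ^ C / δ) + n) + 1) / 2 ^ m ≤ σ)
    (lam : Λ → Mon n K → ℝ) {i : ℕ} (hi : k' ≤ i) :
    Pr (Qp p L (cel th) i) {w | ‖lam (L w.1)‖ = 1 ∧
      (∃ j, δ ≤ |grd (lam (L w.1)) (fun i => (cel th k' w.1 i : ℝ) / 2 ^ k') j|) ∧
      |∑ s : Mon n K, lam (L w.1) s * (mono (s : Fin n → ℕ) (th w.2) -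
        mono (s : Fin n → ℕ) (th w.1))| < (2 : ℝ) ^ (-((i : ℤ) + C))} *
      Real.log (1 / σ) ≤ (Df p L th (i + m) - Df p L th i) + Real.log 2 := by
  classical
  have hp0 := hp.nonneg
  set Q := Qp p L (cel th) i with hQ
  have hQ0 : ∀ w, 0 ≤ Q w := fun w => dbl_nonneg hp0 _ w
  have hQ1 : ∑ w, Q w = 1 := by
    have := (marg_fst (p₁ := p) (p₂ := p) (Z₁ := fun ω => (L ω, cel th i ω))
      (Z₂ := fun ω => (L ω, cel th i ω)) hp0 (fun _ => rfl)).sum
    rw [← hp.sum_one, ← this]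
    rfl
  set R : ℝ := 2 ^ m * (2 / 2 ^ C / δ) + n with hR
  have hR0 : 0 ≤ R := by positivity
  set c' : Ω → Fin n → ℝ := fun ω j => (cel th k' ω j : ℝ) / 2 ^ k' with hc'
  set N : (Λ × (Fin n → ℤ)) × Ω → Finset (Fin n → ℤ) := fun y =>
    if ‖lam y.1.1‖ = 1 ∧ ∃ j, δ ≤ |grd (lam y.1.1) (c' y.2) j| then
      (chil m y.1.2).filter (fun u => |∑ j, grd (lam y.1.1) (c' y.2) j * (u j : ℝ) -
        2 ^ (i + m) * ∑ j, grd (lam y.1.1) (c' y.2) j * th y.2 j| <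
          ‖grd (lam y.1.1) (c' y.2)‖ * R) else ∅ with hN
  have h := pr_small (p := Q) ⟨hQ0, hQ1⟩ (fun w => cel th (i + m) w.2)
    (fun w => ((L w.2, cel th i w.2), w.1)) N (fun y => chil m y.1.2)
    (M := 2 ^ (m * n)) (σ := σ) (d := Df p L th (i + m) - Df p L th i) (by positivity) hσ hσ1 (by
      intro y
      simp only [hN]
      split_ifs with h1
      · obtain ⟨-, j₀, hj₀⟩ := h1
        obtain ⟨j, -, hj⟩ := Finset.exists_max_image univ
          (fun j => |grd (lam y.1.1) (c' y.2) j|) ⟨j₀, Finset.mem_univ _⟩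
        have hnorm : ‖grd (lam y.1.1) (c' y.2)‖ = |grd (lam y.1.1) (c' y.2) j| := by
          apply le_antisymm
          · exact (pi_norm_le_iff_of_nonneg (abs_nonneg _)).2 fun i => hj i (Finset.mem_univ _)
          · exact norm_le_pi_norm (grd (lam y.1.1) (c' y.2)) j
        have hpos : 0 < |grd (lam y.1.1) (c' y.2) j| :=
          lt_of_lt_of_le hδ (hj₀.trans (hj j₀ (Finset.mem_univ _)))
        have h2 := slab_card m y.1.2 (grd (lam y.1.1) (c' y.2)) j hpos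
          (2 ^ (i + m) * ∑ j, grd (lam y.1.1) (c' y.2) j * th y.2 j) R hR0
          ((chil m y.1.2).filter (fun u => |∑ j, grd (lam y.1.1) (c' y.2) j * (u j : ℝ) -
            2 ^ (i + m) * ∑ j, grd (lam y.1.1) (c' y.2) j * th y.2 j| <
            ‖grd (lam y.1.1) (c' y.2)‖ * R)) (Finset.filter_subset _ _)
          (fun u hu => by
            have := (Finset.mem_filter.1 hu).2
            rwa [hnorm] at this)
        rw [Fintype.card_fin] at h2
        exact h2.trans (mul_le_mul_of_nonneg_right hm (by positivity))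
      · rw [Finset.card_empty, Nat.cast_zero]
        positivity) (by
      intro y
      rw [chil_card, Fintype.card_fin]) (by
      intro w _
      exact mem_chil th i m w.2) (by
      have h1 := CH_glue_snd (p₁ := p) (p₂ := p) (Z₁ := fun ω => (L ω, cel th i ω))
        (Z₂ := fun ω => (L ω, cel th i ω)) hp0 hp0 (fun _ => rfl) (cel th (i + m))
        (Y := fun ω => (L ω, cel th i ω)) (fun ω => ω) (fun _ _ _ _ e => e)
      have h2 : CH Q (fun w => cel th (i + m) w.2) (fun w => ((L w.2, cel th i w.2), w.1)) =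
          CH p (cel th (i + m)) (fun ω => (L ω, cel th i ω)) := h1
      rw [h2, ch_cel_chain L th hp (Nat.le_add_right i m), Real.log_pow]
      unfold Df
      push_cast
      nlinarith [Real.log_nonneg (show (1 : ℝ) ≤ 2 by norm_num)])
  refine le_trans ?_ h
  refine mul_le_mul_of_nonneg_right (Pr_le hQ0 fun w hw hw' => ?_) (Real.log_nonneg (by
    rw [le_div_iff₀ hσ]; linarith))
  obtain ⟨hp1, hp2, he⟩ := dbl_pos hp0 _ hw
  simp only [Prod.mk.injEq] at he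
  obtain ⟨hL, hc⟩ := he
  obtain ⟨h1, ⟨j₀, h2⟩, h3⟩ := hw'
  show cel th (i + m) w.2 ∈ N ((L w.2, cel th i w.2), w.1)
  simp only [hN]
  rw [← hL, if_pos ⟨h1, j₀, h2⟩, Finset.mem_filter]
  refine ⟨mem_chil th i m w.2, ?_⟩
  set G := grd (lam (L w.1)) (c' w.1) with hG
  have hGn : δ ≤ ‖G‖ := h2.trans (norm_le_pi_norm G j₀)
  have hck : cel th k' w.1 = cel th k' w.2 := by
    obtain ⟨r, rfl⟩ := Nat.exists_eq_add_of_le hi
    funext j
    rw [cel_eq_div th k' r w.1 j, cel_eq_div th k' r w.2 j, hc]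
  have hth1 : ∀ ω j, |th ω j| ≤ 1 := fun ω j => by
    rw [abs_le]; have := hth ω j; constructor <;> linarith
  have hc1 : ∀ j, |c' w.1 j| ≤ 1 := by
    intro j
    have hr0 : 0 ≤ c' w.1 j := by
      simp only [hc']
      refine div_nonneg ?_ (by positivity)
      have : 0 ≤ cel th k' w.1 j := Int.floor_nonneg.2 (mul_nonneg (by positivity) (hth w.1 j).1)
      exact_mod_cast this
    have hr1 : c' w.1 j ≤ th w.1 j := by
      simp only [hc']
      rw [div_le_iff₀ (by positivity)]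
      have := Int.floor_le ((2 : ℝ) ^ k' * th w.1 j)
      have e : (cel th k' w.1 j : ℝ) = ⌊(2 : ℝ) ^ k' * th w.1 j⌋ := rfl
      rw [e]
      linarith
    rw [abs_of_nonneg hr0]
    linarith [(hth w.1 j).2]
  have hT := tay_sum b hg hD (lam (L w.1)) h1.le (x := th w.2) (x' := th w.1) (x₀ := c' w.1)
    (hth1 _) (hth1 _) hc1 (r := 1 / 2 ^ k') (ρ := 1 / 2 ^ i)
    (fun j => by
      have := cel_off th k' w.2 j
      simp only [hc']
      rw [hck]
      exact this)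
    (fun j => cel_off th k' w.1 j)
    ((pi_norm_le_iff_of_nonneg (by positivity)).2 fun j => cel_near th hc.symm j)
    (by positivity)
  -- the size of the form
  have hz : (2 : ℝ) ^ (-((i : ℤ) + C)) = 1 / 2 ^ i * (1 / 2 ^ C) := by
    rw [zpow_neg, zpow_add₀ (by norm_num : (2 : ℝ) ≠ 0), zpow_natCast, zpow_natCast]
    field_simp
  have herr : (Fintype.card (Mon n K) : ℝ) * (b.C * (1 / 2 ^ k') * (1 / 2 ^ i)) ≤
      1 / 2 ^ i * (1 / 2 ^ C) := by
    have h4 : (Fintype.card (Mon n K) : ℝ) * b.C * (1 / 2 ^ k') ≤ 1 / 2 ^ C := by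
      rw [mul_one_div, div_le_div_iff₀ (by positivity) (by positivity)]
      linarith
    have h5 := mul_le_mul_of_nonneg_left h4 (show (0 : ℝ) ≤ 1 / 2 ^ i by positivity)
    linarith
  rw [hz] at h3
  have hform : |∑ j, G j * (th w.2 j - th w.1 j)| < 2 * (1 / 2 ^ i * (1 / 2 ^ C)) := by linarith
  -- from the position to its digits
  have hdig : |∑ j, G j * ((cel th (i + m) w.2 j : ℝ) / 2 ^ (i + m) - th w.2 j)| ≤
      n * (‖G‖ * (1 / 2 ^ (i + m))) := by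
    refine (Finset.abs_sum_le_sum_abs _ _).trans ?_
    have h6 : ∀ j ∈ (univ : Finset (Fin n)),
        |G j * ((cel th (i + m) w.2 j : ℝ) / 2 ^ (i + m) - th w.2 j)| ≤
        ‖G‖ * (1 / 2 ^ (i + m)) := by
      intro j _
      rw [abs_mul, abs_sub_comm]
      exact mul_le_mul (norm_le_pi_norm G j) (cel_off th (i + m) w.2 j) (abs_nonneg _)
        (norm_nonneg _)
    refine (Finset.sum_le_sum h6).trans ?_
    rw [Finset.sum_const, Finset.card_univ, Fintype.card_fin, nsmul_eq_mul]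
  have hpos : (0 : ℝ) < 2 ^ (i + m) := by positivity
  have hid : ∑ j, G j * (cel th (i + m) w.2 j : ℝ) - 2 ^ (i + m) * ∑ j, G j * th w.1 j =
      2 ^ (i + m) * (∑ j, G j * (th w.2 j - th w.1 j) +
        ∑ j, G j * ((cel th (i + m) w.2 j : ℝ) / 2 ^ (i + m) - th w.2 j)) := by
    rw [← Finset.sum_add_distrib]
    simp only [Finset.mul_sum]
    rw [← Finset.sum_sub_distrib]
    refine Finset.sum_congr rfl fun j _ => ?_
    field_simp
    ring
  rw [hid, abs_mul, abs_of_pos hpos]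
  have h7 := abs_add_le (∑ j, G j * (th w.2 j - th w.1 j))
    (∑ j, G j * ((cel th (i + m) w.2 j : ℝ) / 2 ^ (i + m) - th w.2 j))
  have h8 : |∑ j, G j * (th w.2 j - th w.1 j) +
      ∑ j, G j * ((cel th (i + m) w.2 j : ℝ) / 2 ^ (i + m) - th w.2 j)| <
      2 * (1 / 2 ^ i * (1 / 2 ^ C)) + n * (‖G‖ * (1 / 2 ^ (i + m))) := by linarith
  have h9 := mul_lt_mul_of_pos_left h8 hpos
  refine h9.trans_le ?_
  have h10 : (2 : ℝ) ^ (i + m) * (2 * (1 / 2 ^ i * (1 / 2 ^ C)) + n * (‖G‖ * (1 / 2 ^ (i + m)))) =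
      2 ^ m * (2 / 2 ^ C) + n * ‖G‖ := by
    rw [pow_add]
    field_simp
  rw [h10, hR]
  have h11 : (2 : ℝ) ^ m * (2 / 2 ^ C) ≤ ‖G‖ * (2 ^ m * (2 / 2 ^ C / δ)) := by
    have h12 : (2 : ℝ) ^ m * (2 / 2 ^ C) = δ * (2 ^ m * (2 / 2 ^ C / δ)) := by
      field_simp
    rw [h12]
    exact mul_le_mul_of_nonneg_right hGn (by positivity)
  linarith

end Pool.FR
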