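import Pool.Agent.H11.FR.SPb

/-!
# The prediction lemma: most lines have pairs which are not concentrated near a hyperplane
-/

set_option autoImplicit false

namespace Pool.FR

open Finset Real
open Pool.Agent.H49.Ent Pool.Agent.H32.Dense Pool.STK Pool.KAF Pool.OC Pool.M5

theorem Pr_fst {Ω β : Type} [Fintype Ω] {p : Ω → ℝ} (hp : ∀ ω, 0 ≤ p ω) (b : Ω → β)
    (E : Set Ω) : Pr (dbl p b) {w | w.1 ∈ E} = Pr p E :=
  law_dbl_fst hp b (fun ω => ω ∈ E) True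

theorem Pr_le_one {Ω : Type} [Fintype Ω] {p : Ω → ℝ} (hp : IsLaw p) (E : Set Ω) : Pr p E ≤ 1 := by
  classical
  rw [Pr_sum]
  refine le_trans (Finset.sum_le_sum fun v _ => ?_) hp.sum_one.le
  have := hp.nonneg v
  split_ifs <;> linarith

theorem dbl_law {Ω β : Type} [Fintype Ω] {p : Ω → ℝ} (hp : IsLaw p) (b : Ω → β) :
    IsLaw (dbl p b) := by
  refine ⟨dbl_nonneg hp.nonneg b, ?_⟩
  have := (marg_fst (p₁ := p) (p₂ := p) (Z₁ := b) (Z₂ := b) hp.nonneg (fun _ => rfl)).sum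
  rw [← hp.sum_one, ← this]
  rfl

/-- Mean form. -/
theorem sp_sum (hGRD : GRDStmt) (hTAY : TAYStmt) (n K : ℕ) (η : ℝ) (hη : 0 < η) :
    ∃ (C k' m n₁ : ℕ), ∀ (Ω Λ : Type) [Fintype Ω] (p : Ω → ℝ) (L : Ω → Λ) (th : Ω → Fin n → ℝ)
      (X n₀ : ℕ) (ι : ℝ), IsLaw p → (∀ ω j, 0 ≤ th ω j ∧ th ω j < 1) → n₁ ≤ n₀ → n₀ + m ≤ X →
      (n - ι) * X * Real.log 2 ≤ CH p (cel th X) L →
      n * (k' * Real.log 2) - 1 ≤ CH p (cel th k') L → (m : ℝ) * (ι * X) ≤ n₀ →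
      ∀ lam : Λ → Mon n K → ℝ, ∑ i ∈ range n₀, Pr (Qp p L (cel th) i) {w |
        ‖lam (L w.1)‖ = 1 ∧ |∑ s : Mon n K, lam (L w.1) s * (mono (s : Fin n → ℕ) (th w.2) -
        mono (s : Fin n → ℕ) (th w.1))| < (2 : ℝ) ^ (-((i : ℤ) + C))} ≤ η * n₀ := by
  classical
  have hl2 : 0 < Real.log 2 := Real.log_pos (by norm_num)
  obtain ⟨b, hg, hD⟩ := hTAY n K
  have hbC : 0 ≤ b.C := by linarith [b.hC]
  -- constants
  set l₁ : ℝ := 4 * (1 + Real.log 2) / η with hl₁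
  set l₂ : ℝ := 8 * Real.log 2 / η with hl₂
  have hl₁0 : 0 < l₁ := by positivity
  have hl₂0 : 0 < l₂ := by positivity
  set σ : ℝ := Real.exp (-l₁) with hσ
  set σ' : ℝ := Real.exp (-l₂) with hσ'
  have hσ0 : 0 < σ := Real.exp_pos _
  have hσ'0 : 0 < σ' := Real.exp_pos _
  have hσ1 : σ ≤ 1 := Real.exp_le_one_iff.2 (by linarith)
  have hσ'1 : σ' ≤ 1 := Real.exp_le_one_iff.2 (by linarith)
  have hlogσ : Real.log (1 / σ) = l₁ := by
    rw [one_div, Real.log_inv, hσ, Real.log_exp, neg_neg]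
  have hlogσ' : Real.log (1 / σ') = l₂ := by
    rw [one_div, Real.log_inv, hσ', Real.log_exp, neg_neg]
  obtain ⟨δ, M₀, hδ, hM⟩ := hGRD n K σ hσ0
  obtain ⟨m, hm⟩ : ∃ m : ℕ, (2 * (n : ℝ) + 1) / 2 ^ m ≤ σ' / 2 := by
    obtain ⟨m, hm⟩ := pow_unbounded_of_one_lt ((2 * (n : ℝ) + 1) / (σ' / 2))
      (show (1 : ℝ) < 2 by norm_num)
    refine ⟨m, ?_⟩
    rw [div_le_iff₀ (by positivity)]
    rw [div_lt_iff₀ (by positivity)] at hm
    linarith
  obtain ⟨C, hC⟩ : ∃ C : ℕ, 4 / 2 ^ C / δ ≤ σ' / 2 := by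
    obtain ⟨C, hC⟩ := pow_unbounded_of_one_lt (4 / δ / (σ' / 2)) (show (1 : ℝ) < 2 by norm_num)
    refine ⟨C, ?_⟩
    rw [div_div, div_le_iff₀ (by positivity)]
    rw [div_div, div_lt_iff₀ (by positivity)] at hC
    linarith
  obtain ⟨k₁, hk₁⟩ := pow_unbounded_of_one_lt (Fintype.card (Mon n K) * b.C * 2 ^ C)
    (show (1 : ℝ) < 2 by norm_num)
  set k' : ℕ := max k₁ M₀ with hk'
  have hkM : M₀ ≤ 2 ^ k' := (le_max_right k₁ M₀).trans (Nat.lt_two_pow_self).le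
  have hkC : Fintype.card (Mon n K) * b.C * 2 ^ C ≤ 2 ^ k' :=
    hk₁.le.trans (pow_le_pow_right₀ (by norm_num) (le_max_left _ _))
  obtain ⟨n₁, hn₁⟩ := exists_nat_ge (4 * (k' : ℝ) / η)
  refine ⟨C, k', m, n₁, ?_⟩
  intro Ω Λ _ p L th X n₀ ι hp hth hn hX hfull hk hι lam
  have hp0 := hp.nonneg
  set A : Set Ω := {ω | ‖lam (L ω)‖ = 1 ∧ ∀ j, |∑ s : Mon n K, lam (L ω) s *
      dmono (s : Fin n → ℕ) (fun i => (cel th k' ω i : ℝ) / 2 ^ k') j| < δ} with hA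
  set E : ℕ → Set (Ω × Ω) := fun i => {w |
        ‖lam (L w.1)‖ = 1 ∧ |∑ s : Mon n K, lam (L w.1) s * (mono (s : Fin n → ℕ) (th w.2) -
        mono (s : Fin n → ℕ) (th w.1))| < (2 : ℝ) ^ (-((i : ℤ) + C))} with hE
  set B : ℕ → Set (Ω × Ω) := fun i => {w | ‖lam (L w.1)‖ = 1 ∧
      (∃ j, δ ≤ |grd (lam (L w.1)) (fun i => (cel th k' w.1 i : ℝ) / 2 ^ k') j|) ∧
      |∑ s : Mon n K, lam (L w.1) s * (mono (s : Fin n → ℕ) (th w.2) -
        mono (s : Fin n → ℕ) (th w.1))| < (2 : ℝ) ^ (-((i : ℤ) + C))} with hB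
  have hPA : Pr p A ≤ η / 4 := by
    have h := grad_prob L th hp hth (σ := σ) (δ := δ) (k' := k') hσ0 hσ1
      (hM (2 ^ k') hkM) hk lam
    rw [hlogσ] at h
    have h2 : η / 4 * l₁ = 1 + Real.log 2 := by rw [hl₁]; field_simp
    rw [← h2] at h
    exact le_of_mul_le_mul_right h hl₁0
  have hPB : ∀ i, k' ≤ i → Pr (Qp p L (cel th) i) (B i) ≤
      η / (8 * Real.log 2) * (Df p L th (i + m) - Df p L th i) + η / 8 := by
    intro i hi
    have hmm : (2 * (2 ^ m * (2 / 2 ^ C / δ) + n) + 1) / 2 ^ m ≤ σ' := by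
      have e1 : ((2 : ℝ) * (2 ^ m * (2 / 2 ^ C / δ) + n) + 1) / 2 ^ m =
          4 / 2 ^ C / δ + (2 * (n : ℝ) + 1) / 2 ^ m := by
        field_simp
        ring
      rw [e1]
      linarith
    have h := pair_prob L th hp hth b hg hD (δ := δ) (σ := σ') (C := C) (k' := k') (m := m)
      hδ hσ'0 hσ'1 hkC hmm lam hi
    rw [hlogσ'] at h
    have h3 : (η / (8 * Real.log 2) * (Df p L th (i + m) - Df p L th i) + η / 8) * l₂ =
        (Df p L th (i + m) - Df p L th i) + Real.log 2 := by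
      rw [hl₂]; field_simp
    rw [← h3] at h
    exact le_of_mul_le_mul_right h hl₂0
  have hQ : ∀ i, IsLaw (Qp p L (cel th) i) := fun i => dbl_law hp _
  have hEi : ∀ i ∈ range n₀, Pr (Qp p L (cel th) i) (E i) ≤ (if i < k' then 1 else 0) +
      (η / 4 + (η / (8 * Real.log 2) * (Df p L th (i + m) - Df p L th i) + η / 8)) := by
    intro i _
    have hdf : 0 ≤ Df p L th (i + m) - Df p L th i := by
      have := Df_mono L th hp (Nat.le_add_right i m)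
      linarith
    have hnn : 0 ≤ η / (8 * Real.log 2) * (Df p L th (i + m) - Df p L th i) :=
      mul_nonneg (by positivity) hdf
    by_cases hi : i < k'
    · rw [if_pos hi]
      have := Pr_le_one (hQ i) (E i)
      linarith
    · rw [if_neg hi, zero_add]
      have h1 : Pr (Qp p L (cel th) i) (E i) ≤ Pr (Qp p L (cel th) i) {w | w.1 ∈ A} +
          Pr (Qp p L (cel th) i) (B i) := by
        refine Pr_or (hQ i).nonneg fun w _ hw => ?_
        obtain ⟨h2, h3⟩ := hw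
        by_cases h4 : ∃ j, δ ≤ |grd (lam (L w.1)) (fun i => (cel th k' w.1 i : ℝ) / 2 ^ k') j|
        · exact Or.inr ⟨h2, h4, h3⟩
        · push Not at h4
          exact Or.inl ⟨h2, h4⟩
      rw [show Qp p L (cel th) i = dbl p (fun ω => (L ω, cel th i ω)) from rfl,
        Pr_fst hp0] at h1
      have h5 := hPB i (not_lt.1 hi)
      rw [show Qp p L (cel th) i = dbl p (fun ω => (L ω, cel th i ω)) from rfl] at h5 ⊢
      linarith
  refine (Finset.sum_le_sum hEi).trans ?_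
  rw [Finset.sum_add_distrib, Finset.sum_add_distrib, Finset.sum_add_distrib, Finset.sum_const,
    Finset.sum_const, ← Finset.mul_sum, Finset.card_range, nsmul_eq_mul, nsmul_eq_mul]
  have h1 : ∑ i ∈ range n₀, (if i < k' then (1 : ℝ) else 0) ≤ k' := by
    rw [Finset.sum_ite, Finset.sum_const_zero, add_zero, Finset.sum_const, nsmul_eq_mul, mul_one]
    have : ((range n₀).filter fun i => i < k').card ≤ k' := by
      calc _ ≤ (range k').card := Finset.card_le_card fun x hx => by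
            simp only [Finset.mem_filter, Finset.mem_range] at hx ⊢
            exact hx.2
        _ = k' := Finset.card_range _
    exact_mod_cast this
  have h2 := Df_sum L th hp hth hX
  have h3 : Df p L th X ≤ ι * X * Real.log 2 := by
    unfold Df
    have e : (n - ι) * X * Real.log 2 = n * (X * Real.log 2) - ι * X * Real.log 2 := by ring
    linarith
  have h4 : (m : ℝ) * Df p L th X ≤ n₀ * Real.log 2 := by
    calc (m : ℝ) * Df p L th X ≤ m * (ι * X * Real.log 2) :=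
          mul_le_mul_of_nonneg_left h3 (Nat.cast_nonneg _)
      _ = m * (ι * X) * Real.log 2 := by ring
      _ ≤ _ := mul_le_mul_of_nonneg_right hι hl2.le
  have h5 : η / (8 * Real.log 2) * ∑ i ∈ range n₀, (Df p L th (i + m) - Df p L th i) ≤
      η / 8 * n₀ := by
    calc _ ≤ η / (8 * Real.log 2) * (n₀ * Real.log 2) :=
          mul_le_mul_of_nonneg_left (h2.trans h4) (by positivity)
      _ = η / 8 * n₀ := by field_simp
  have h6 : (k' : ℝ) ≤ η / 4 * n₀ := by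
    have e : (n₁ : ℝ) ≤ n₀ := Nat.cast_le.2 hn
    have e2 : 4 * (k' : ℝ) / η ≤ n₀ := hn₁.trans e
    rw [div_le_iff₀ hη] at e2
    linarith
  have h7 : (0 : ℝ) ≤ η * n₀ := by positivity
  linarith

/-- **(SP)** -/
theorem nc_prob (hGRD : GRDStmt) (hTAY : TAYStmt) (n K : ℕ) (η η₂ : ℝ) (hη : 0 < η)
    (hη₂ : 0 < η₂) :
    ∃ (C k' m n₁ : ℕ), ∀ (Ω Λ : Type) [Fintype Ω] (p : Ω → ℝ) (L : Ω → Λ) (th : Ω → Fin n → ℝ)
      (X n₀ : ℕ) (ι : ℝ), IsLaw p → (∀ ω j, 0 ≤ th ω j ∧ th ω j < 1) → n₁ ≤ n₀ → 0 < n₀ →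
      n₀ + m ≤ X → (n - ι) * X * Real.log 2 ≤ CH p (cel th X) L →
      n * (k' * Real.log 2) - 1 ≤ CH p (cel th k') L → (m : ℝ) * (ι * X) ≤ n₀ →
      Pr p {ω | ¬ NC p L (cel th) (fun ω (s : Mon n K) => mono (s : Fin n → ℕ) (th ω)) n₀ C η ω} ≤
        η₂ := by
  classical
  obtain ⟨C, k', m, n₁, h⟩ := sp_sum hGRD hTAY n K (η * η₂) (by positivity)
  refine ⟨C, k', m, n₁, ?_⟩
  intro Ω Λ _ p L th X n₀ ι hp hth hn hn0 hX hfull hk hι
  have hp0 := hp.nonneg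
  set φ : Ω → Mon n K → ℝ := fun ω s => mono (s : Fin n → ℕ) (th ω) with hφ
  have hQ0 : ∀ i w, 0 ≤ Qp p L (cel th) i w := fun i w => dbl_nonneg hp0 _ w
  set S : Λ → (Mon n K → ℝ) → ℝ := fun l lam => ∑ i ∈ range n₀,
    Pr (cond (Qp p L (cel th) i) (fun w => L w.1) l)
    {w | |∑ j, lam j * (φ w.2 j - φ w.1 j)| < ‖lam‖ * (2 : ℝ) ^ (-((i : ℤ) + C))} with hS
  -- the worst direction
  set lamL : Λ → Mon n K → ℝ := fun l =>
    if hl : ∃ lam : Mon n K → ℝ, ‖lam‖ = 1 ∧ η * n₀ < S l lam then hl.choose else 0 with hlam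
  have hsum := h Ω Λ p L th X n₀ ι hp hth hn hX hfull hk hι lamL
  set f : Ω → ℝ := fun ω => ∑ i ∈ range n₀, Pr (cond (Qp p L (cel th) i) (fun w => L w.1) (L ω))
    {w | ‖lamL (L w.1)‖ = 1 ∧ |∑ s : Mon n K, lamL (L w.1) s * (mono (s : Fin n → ℕ) (th w.2) -
        mono (s : Fin n → ℕ) (th w.1))| < (2 : ℝ) ^ (-((i : ℤ) + C))} with hf
  have hn0' : (0 : ℝ) < n₀ := Nat.cast_pos.2 hn0
  have hmark := Pool.KX.AVG.markov hp0 f (fun ω _ => Finset.sum_nonneg fun i _ =>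
    Pr_nn (fun w => cond_nonneg (hQ0 i) _ _ w) _) (η * n₀) η₂ (by positivity) (by
      have e1 : ∑ ω, p ω * f ω = ∑ i ∈ range n₀, Pr (Qp p L (cel th) i) {w |
          ‖lamL (L w.1)‖ = 1 ∧ |∑ s : Mon n K, lamL (L w.1) s * (mono (s : Fin n → ℕ) (th w.2) -
          mono (s : Fin n → ℕ) (th w.1))| < (2 : ℝ) ^ (-((i : ℤ) + C))} := by
        simp only [hf, Finset.mul_sum]
        rw [Finset.sum_comm]
        refine Finset.sum_congr rfl fun i _ => ?_
        rw [Pr_sum]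
        rw [← tower2 (hQ0 i) (fun w => L w.1) L (fun z => law_dbl_fst hp0 _ L z)]
        refine Finset.sum_congr rfl fun ω _ => ?_
        rw [Pr_sum]
      rw [e1]
      linarith)
  refine le_trans (Pr_le hp0 fun ω hω hNC => ?_) hmark
  have hNC' : ¬ ∀ lam : Mon n K → ℝ, S (L ω) lam ≤ η * n₀ := hNC
  push Not at hNC'
  obtain ⟨lam₀, h0⟩ := hNC'
  have hne : 0 < ‖lam₀‖ := by
    rcases (norm_nonneg lam₀).eq_or_lt with h1 | h1
    · exfalso
      have h2 : S (L ω) lam₀ = 0 := by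
        rw [hS]
        refine Finset.sum_eq_zero fun i _ => ?_
        rw [← h1]
        have : {w : Ω × Ω | |∑ j, lam₀ j * (φ w.2 j - φ w.1 j)| <
            0 * (2 : ℝ) ^ (-((i : ℤ) + C))} = ∅ := by
          ext w
          simp only [zero_mul, Set.mem_ofPred_eq, Set.mem_empty_iff_false, iff_false, not_lt]
          exact abs_nonneg _
        rw [this, Pr_sum]
        exact Finset.sum_eq_zero fun v _ => by simp
      rw [h2] at h0
      have : 0 ≤ η * (n₀ : ℝ) := by positivity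
      linarith
    · exact h1
  have hex : ∃ lam : Mon n K → ℝ, ‖lam‖ = 1 ∧ η * n₀ < S (L ω) lam := by
    refine ⟨‖lam₀‖⁻¹ • lam₀, ?_, ?_⟩
    · rw [norm_smul, norm_inv, norm_norm, inv_mul_cancel₀ hne.ne']
    · refine h0.trans_le (le_of_eq ?_)
      rw [hS]
      refine Finset.sum_congr rfl fun i _ => ?_
      congr 1
      ext w
      simp only [Set.mem_ofPred_eq]
      have e1 : ∑ j, (‖lam₀‖⁻¹ • lam₀) j * (φ w.2 j - φ w.1 j) =
          ‖lam₀‖⁻¹ * ∑ j, lam₀ j * (φ w.2 j - φ w.1 j) := by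
        rw [Finset.mul_sum]
        exact Finset.sum_congr rfl fun j _ => by rw [Pi.smul_apply, smul_eq_mul]; ring
      have e2 : ‖‖lam₀‖⁻¹ • lam₀‖ = 1 := by
        rw [norm_smul, norm_inv, norm_norm, inv_mul_cancel₀ hne.ne']
      rw [e1, e2, one_mul, abs_mul, abs_inv, abs_norm, inv_mul_lt_iff₀ hne]
  have hch : lamL (L ω) = hex.choose := by
    simp only [hlam]
    rw [dif_pos hex]
  obtain ⟨h1, h2⟩ := hex.choose_spec
  rw [← hch] at h1 h2
  show η * n₀ < f ω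
  refine h2.trans_le ?_
  rw [hS, hf]
  refine Finset.sum_le_sum fun i _ => ?_
  refine Pr_le (fun w => cond_nonneg (hQ0 i) _ _ w) fun w hw hw' => ?_
  obtain ⟨-, h3⟩ := cond_pos' (hQ0 i) _ hw
  have h3' : L w.1 = L ω := h3
  have h4 : |∑ j, lamL (L ω) j * (φ w.2 j - φ w.1 j)| <
      ‖lamL (L ω)‖ * (2 : ℝ) ^ (-((i : ℤ) + C)) := hw'
  rw [h1, one_mul] at h4
  show ‖lamL (L w.1)‖ = 1 ∧ |∑ s : Mon n K, lamL (L w.1) s * (mono (s : Fin n → ℕ) (th w.2) -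
        mono (s : Fin n → ℕ) (th w.1))| < (2 : ℝ) ^ (-((i : ℤ) + C))
  rw [h3']
  exact ⟨h1, h4⟩

end Pool.FR
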