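import Pool.Agent.H70.OC.Tel
import Pool.Agent.H11.FR.Ker

/-!
# The prediction lemma, entropy of the cells
-/

set_option autoImplicit false

namespace Pool.FR

open Finset Real
open Pool.Agent.H49.Ent Pool.Agent.H32.Dense Pool.STK Pool.KAF Pool.OC

variable {Ω ι : Type} [Fintype Ω] [Fintype ι] {p : Ω → ℝ}

/-- The cells. -/
noncomputable def cel (V : Ω → ι → ℝ) (s : ℕ) (ω : Ω) : ι → ℤ := fun j => ⌊(2 : ℝ) ^ s * V ω j⌋

omit [Fintype Ω] [Fintype ι] in
theorem cel_child (V : Ω → ι → ℝ) (s κ : ℕ) (ω : Ω) (j : ι) :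
    2 ^ κ * cel V s ω j ≤ cel V (s + κ) ω j ∧ cel V (s + κ) ω j < 2 ^ κ * (cel V s ω j + 1) := by
  have h := Pool.OCT.fl_two_pow κ ((2 : ℝ) ^ s) (fun ω => V ω j) ω
  unfold Pool.OCT.fl at h
  unfold cel
  rw [pow_add, mul_comm ((2 : ℝ) ^ s) (2 ^ κ)]
  exact h

omit [Fintype Ω] [Fintype ι] in
theorem cel_eq_div (V : Ω → ι → ℝ) (s κ : ℕ) (ω : Ω) (j : ι) :
    cel V s ω j = cel V (s + κ) ω j / 2 ^ κ := by
  obtain ⟨h1, h2⟩ := cel_child V s κ ω j
  have h0 : (0 : ℤ) < 2 ^ κ := by positivity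
  symm
  apply le_antisymm
  · have : cel V (s + κ) ω j / 2 ^ κ < cel V s ω j + 1 := by
      rw [Int.ediv_lt_iff_lt_mul h0]
      linarith
    omega
  · rw [Int.le_ediv_iff_mul_le h0]
    linarith

omit [Fintype ι] [Fintype Ω] in
theorem cel_det (V : Ω → ι → ℝ) {s s' : ℕ} (h : s ≤ s') : Det p (cel V s') (cel V s) := by
  obtain ⟨κ, rfl⟩ := Nat.exists_eq_add_of_le h
  intro ω ω' _ _ e
  funext j
  rw [cel_eq_div V s κ ω j, cel_eq_div V s κ ω' j, e]

omit [Fintype ι] in
theorem H_cel_mono (hp : IsLaw p) (V : Ω → ι → ℝ) {s s' : ℕ} (h : s ≤ s') :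
    H p (cel V s) ≤ H p (cel V s') := H_mono hp.nonneg (cel_det V h)

omit [Fintype ι] in
theorem CH_cel (hp : IsLaw p) (V : Ω → ι → ℝ) {s s' : ℕ} (h : s ≤ s') :
    CH p (cel V s') (cel V s) = H p (cel V s') - H p (cel V s) := by
  unfold CH
  have : H p (fun ω => (cel V s' ω, cel V s ω)) = H p (cel V s') :=
    H_congr hp.nonneg (fun ω ω' a b e => Prod.ext e (cel_det V h ω ω' a b e))
      (fun _ _ _ _ e => (Prod.ext_iff.1 e).1)
  rw [this]

/-- The children of a cell. -/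
noncomputable def chil (κ : ℕ) (g : ι → ℤ) : Finset (ι → ℤ) := by
  classical
  exact Fintype.piFinset fun j => Finset.Ico (2 ^ κ * g j) (2 ^ κ * (g j + 1))

theorem chil_card (κ : ℕ) (g : ι → ℤ) : ((chil κ g).card : ℝ) = 2 ^ (κ * Fintype.card ι) := by
  classical
  unfold chil
  rw [Fintype.card_piFinset]
  have : ∀ j, (Finset.Ico (2 ^ κ * g j) (2 ^ κ * (g j + 1))).card = 2 ^ κ := by
    intro j
    rw [Int.card_Ico]
    have : (2 : ℤ) ^ κ * (g j + 1) - 2 ^ κ * g j = ((2 ^ κ : ℕ) : ℤ) := by push_cast; ring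
    rw [this, Int.toNat_natCast]
  rw [Finset.prod_congr rfl fun j _ => this j, Finset.prod_const, Finset.card_univ]
  push_cast
  rw [← pow_mul]

omit [Fintype Ω] in
theorem mem_chil (V : Ω → ι → ℝ) (s κ : ℕ) (ω : Ω) : cel V (s + κ) ω ∈ chil κ (cel V s ω) := by
  classical
  unfold chil
  rw [Fintype.mem_piFinset]
  intro j
  rw [Finset.mem_Ico]
  exact cel_child V s κ ω j

theorem ch_cel_le (hp : IsLaw p) (V : Ω → ι → ℝ) (s κ : ℕ) :
    CH p (cel V (s + κ)) (cel V s) ≤ Fintype.card ι * (κ * Real.log 2) := by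
  have h := CH_le_card hp.nonneg hp.sum_one (cel V (s + κ)) (cel V s) (fun g => chil κ g)
    (fun ω _ => mem_chil V s κ ω)
  refine h.trans (le_of_eq ?_)
  rw [← Ex_const hp.sum_one (Fintype.card ι * (κ * Real.log 2))]
  unfold Ex
  refine Finset.sum_congr rfl fun ω _ => ?_
  simp only
  rw [chil_card, Real.log_pow]
  push_cast
  ring

/-- One step. -/
theorem cel_step (hp : IsLaw p) (V : Ω → ι → ℝ) (s κ : ℕ) :
    CH p (cel V (s + κ)) (cel V s) ≤ Real.log 2 + Fintype.card ι * Real.log 3 +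
      Pr (dbl p (cel V s)) {z | (2 : ℝ) ^ (-((s : ℤ) + κ)) ≤ ‖V z.1 - V z.2‖} *
        (Fintype.card ι * (κ * Real.log 2)) := by
  classical
  have hp0 := hp.nonneg
  set G := cel V s with hG
  set R : Ω → Ω → Prop := fun ω v => (2 : ℝ) ^ (-((s : ℤ) + κ)) ≤ ‖V ω - V v‖ with hR
  -- the centre of a cell
  have hex : ∀ g : ι → ℤ, (∃ ω, 0 < p ω ∧ G ω = g) → ∃ ω, (0 < p ω ∧ G ω = g) ∧
      ∀ ω', 0 < p ω' ∧ G ω' = g → Pr (cond p G g) {v | R ω v} ≤ Pr (cond p G g) {v | R ω' v} := by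
    intro g hg
    obtain ⟨ω₀, h₀⟩ := hg
    obtain ⟨ω, h1, h2⟩ := Finset.exists_min_image (univ.filter fun ω => 0 < p ω ∧ G ω = g)
      (fun ω => Pr (cond p G g) {v | R ω v}) ⟨ω₀, by simpa using h₀⟩
    refine ⟨ω, by simpa using h1, fun ω' h' => h2 ω' (by simpa using h')⟩
  set N : (ι → ℤ) → Finset (ι → ℤ) := fun g => if h : ∃ ω, 0 < p ω ∧ G ω = g then
    Fintype.piFinset (fun j => Finset.Icc (cel V (s + κ) (hex g h).choose j - 1)
      (cel V (s + κ) (hex g h).choose j + 1)) else ∅ with hN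
  have hNc : ∀ g, ((N g).card : ℝ) ≤ 3 ^ Fintype.card ι := by
    intro g
    simp only [hN]
    split_ifs with h
    · rw [Fintype.card_piFinset]
      have : ∀ j, (Finset.Icc (cel V (s + κ) (hex g h).choose j - 1)
          (cel V (s + κ) (hex g h).choose j + 1)).card = 3 := by
        intro j
        rw [Int.card_Icc]
        have : cel V (s + κ) (hex g h).choose j + 1 + 1 -
          (cel V (s + κ) (hex g h).choose j - 1) = 3 := by ring
        rw [this]
        rfl
      rw [Finset.prod_congr rfl fun j _ => this j, Finset.prod_const, Finset.card_univ]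
      push_cast
      exact le_rfl
    · rw [Finset.card_empty, Nat.cast_zero]
      positivity
  have h := Pool.OCT.ch_exc hp (cel V (s + κ)) G N (fun g => chil κ g)
    (κ := 3 ^ Fintype.card ι) (L := 2 ^ (κ * Fintype.card ι))
    (one_le_pow₀ (by norm_num)) (one_le_pow₀ (by norm_num)) hNc (fun g => (chil_card κ g).le)
    (fun ω _ => mem_chil V s κ ω)
  refine h.trans ?_
  rw [Real.log_pow, Real.log_pow]
  have hPr : Pr p {ω | cel V (s + κ) ω ∉ N (G ω)} ≤ Pr (dbl p G) {z | R z.1 z.2} := by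
    rw [Pr_two G R, ← Pool.KX.AVG.Pr_cond_sum hp0 G]
    refine Finset.sum_le_sum fun ω _ => ?_
    rcases (hp0 ω).eq_or_lt with h0 | h0
    · rw [← h0]; simp
    refine mul_le_mul_of_nonneg_left ?_ h0.le
    have hh : ∃ ω', 0 < p ω' ∧ G ω' = G ω := ⟨ω, h0, rfl⟩
    have hmin := (hex (G ω) hh).choose_spec
    refine le_trans (Pr_le (fun v => cond_nonneg hp0 G _ v) fun v hv hv' => ?_)
      (hmin.2 ω ⟨h0, rfl⟩)
    obtain ⟨h1, h2⟩ := cond_pos' hp0 G hv
    by_contra hcon
    apply hv'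
    have h3 : ‖V (hex (G ω) hh).choose - V v‖ < (2 : ℝ) ^ (-((s : ℤ) + κ)) := not_le.1 hcon
    have h4 : N (G v) = Fintype.piFinset (fun j => Finset.Icc
        (cel V (s + κ) (hex (G ω) hh).choose j - 1)
        (cel V (s + κ) (hex (G ω) hh).choose j + 1)) := by
      rw [h2]
      simp only [hN]
      rw [dif_pos hh]
    rw [h4, Fintype.mem_piFinset]
    intro j
    have h5 : |V (hex (G ω) hh).choose j - V v j| < (2 : ℝ) ^ (-((s : ℤ) + κ)) :=
      lt_of_le_of_lt (norm_le_pi_norm (V (hex (G ω) hh).choose - V v) j) h3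
    have h6 : |(2 : ℝ) ^ (s + κ) * V (hex (G ω) hh).choose j - (2 : ℝ) ^ (s + κ) * V v j| < 1 := by
      rw [← mul_sub, abs_mul, abs_of_pos (by positivity : (0 : ℝ) < 2 ^ (s + κ))]
      have h7 : (2 : ℝ) ^ (s + κ) * (2 : ℝ) ^ (-((s : ℤ) + κ)) = 1 := by
        rw [← zpow_natCast, ← zpow_add₀ (by norm_num : (2 : ℝ) ≠ 0)]
        push_cast
        rw [add_neg_cancel, zpow_zero]
      calc _ < (2 : ℝ) ^ (s + κ) * (2 : ℝ) ^ (-((s : ℤ) + κ)) :=
            mul_lt_mul_of_pos_left h5 (by positivity)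
        _ = 1 := h7
    rw [abs_lt] at h6
    rw [Finset.mem_Icc]
    unfold cel
    have f1 := Int.floor_le ((2 : ℝ) ^ (s + κ) * V (hex (G ω) hh).choose j)
    have f2 := Int.lt_floor_add_one ((2 : ℝ) ^ (s + κ) * V (hex (G ω) hh).choose j)
    constructor
    · rw [Int.le_floor]
      push_cast
      linarith
    · have : ⌊(2 : ℝ) ^ (s + κ) * V v j⌋ <
          ⌊(2 : ℝ) ^ (s + κ) * V (hex (G ω) hh).choose j⌋ + 1 + 1 := by
        rw [Int.floor_lt]
        push_cast
        linarith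
      omega
  have h8 : (0 : ℝ) ≤ (κ * Fintype.card ι : ℕ) * Real.log 2 :=
    mul_nonneg (Nat.cast_nonneg _) (Real.log_nonneg (by norm_num))
  have h9 := mul_le_mul_of_nonneg_right hPr h8
  push_cast at h9 ⊢
  linarith

/-- The sum over the scales. -/
theorem cel_sum (hp : IsLaw p) (V : Ω → ι → ℝ) (κ S : ℕ) (hκ : 0 < κ) (δ : ℕ → ℝ)
    (hδ : ∀ s < S, Pr (dbl p (cel V s)) {z | (2 : ℝ) ^ (-((s : ℤ) + κ)) ≤ ‖V z.1 - V z.2‖} ≤
      δ s) :
    H p (cel V S) ≤ H p (cel V κ) + S / κ * (Real.log 2 + Fintype.card ι * Real.log 3) +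
      Fintype.card ι * Real.log 2 * ∑ s ∈ range S, δ s := by
  set h : ℕ → ℝ := fun s => H p (cel V s) with hh
  have hmono : ∀ s s', s ≤ s' → h s ≤ h s' := fun s s' e => H_cel_mono hp V e
  have hκ' : (0 : ℝ) < κ := Nat.cast_pos.2 hκ
  have h1 : ∀ s ∈ range S, h (s + κ) - h s ≤ (Real.log 2 + Fintype.card ι * Real.log 3) +
      Fintype.card ι * (κ * Real.log 2) * δ s := by
    intro s hs
    have e1 := cel_step hp V s κ
    rw [CH_cel hp V (Nat.le_add_right s κ)] at e1
    have e2 := mul_le_mul_of_nonneg_right (hδ s (Finset.mem_range.1 hs))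
      (show (0 : ℝ) ≤ Fintype.card ι * (κ * Real.log 2) by
        have := Real.log_nonneg (show (1 : ℝ) ≤ 2 by norm_num)
        positivity)
    simp only [hh]
    linarith
  have h2 := Finset.sum_le_sum h1
  rw [Finset.sum_add_distrib, Finset.sum_const, Finset.card_range, nsmul_eq_mul,
    ← Finset.mul_sum] at h2
  -- telescope
  have h3 : ∀ S, ∑ s ∈ range S, (h (s + κ) - h s) =
      ∑ s ∈ range κ, h (S + s) - ∑ s ∈ range κ, h s := by
    intro S
    induction S with
    | zero => simp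
    | succ S ih =>
      rw [Finset.sum_range_succ, ih]
      have e1 : ∑ s ∈ range κ, h (S + 1 + s) + h S = ∑ s ∈ range κ, h (S + s) + h (S + κ) := by
        have e2 := Finset.sum_range_succ (fun s => h (S + s)) κ
        have e3 := Finset.sum_range_succ' (fun s => h (S + s)) κ
        rw [e2] at e3
        rw [e3]
        congr 1
        refine Finset.sum_congr rfl fun s _ => ?_
        congr 1
        ring
      linarith
  rw [h3] at h2
  have h4 : κ * h S ≤ ∑ s ∈ range κ, h (S + s) := by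
    have := Finset.sum_le_sum (s := range κ) (f := fun _ => h S) (g := fun s => h (S + s))
      fun s _ => hmono _ _ (Nat.le_add_right _ _)
    rwa [Finset.sum_const, Finset.card_range, nsmul_eq_mul] at this
  have h5 : ∑ s ∈ range κ, h s ≤ κ * h κ := by
    have := Finset.sum_le_sum (s := range κ) (f := fun s => h s) (g := fun _ => h κ)
      fun s hs => hmono _ _ (Finset.mem_range.1 hs).le
    rwa [Finset.sum_const, Finset.card_range, nsmul_eq_mul] at this
  have h6 : κ * h S ≤ κ * (h κ + S / κ * (Real.log 2 + Fintype.card ι * Real.log 3) +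
      Fintype.card ι * Real.log 2 * ∑ s ∈ range S, δ s) := by
    have e4 : (κ : ℝ) * (h κ + S / κ * (Real.log 2 + Fintype.card ι * Real.log 3) +
        Fintype.card ι * Real.log 2 * ∑ s ∈ range S, δ s) = κ * h κ +
        S * (Real.log 2 + Fintype.card ι * Real.log 3) +
        Fintype.card ι * (κ * Real.log 2) * ∑ s ∈ range S, δ s := by
      field_simp
    rw [e4]
    linarith
  exact le_of_mul_le_mul_left h6 hκ'

end Pool.FR
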